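import Pool.Agent.Lib_MP_55d5ef_c.Tab
import Pool.Agent.Lib_MP_55d5ef_t.TFlo

/-!
# Kernel checks of the table of the 480 pentachora
-/

open Matrix

namespace H4C

open Lib_MP_55d5ef_geo Lib_MP_55d5ef Lib_MP_55d5ef_q MP55T Lib_MP_55d5ef_c

/-- The basic check of the entry of a facet. -/
def chF (i k : ℕ) : Bool :=
  decide (gj i k < 480) && (decide (gp i k k < 5) && (decide (gj (gj i k) (gp i k k) = i) &&
    (decide (gp i k 0 = 0) && allLt 5 fun m => decide (gp i k m < 5) &&
      decide (gp (gj i k) (gp i k k) (gp i k m) = m))))

/-- No facet is glued to itself. -/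
theorem chN_all : (allLt 480 fun i => allLt 5 fun k =>
    !(decide (gj i k = i) && decide (gp i k k = k))) = true := by decide +kernel

theorem chF_all : (allLt 480 fun i => allLt 5 fun k => chF i k) = true := by decide +kernel

/-- A spanning tree: 8 bits for each record, `8 * distance + facet`. -/
def treN : ℕ :=
  0x4932393c342c4149443c313b51423c3c51434a51414b4a4c635254525b4a5b5a645c515b536153615a5b5b5a5a635962535b52615a5b52525a6359593c3c51494949543a4141414b343c514a3a49443c4439414b293139233139341b222b342c293429121b293129241a232c31312332343c1b292b342c2231311221291b29291a232c244949324134344b493a39434461534251544b4b594a535c5463525261644b615a645c515b535c61535a6b594a5b6459514a5959534a59444253515149233131313939291a2b342921122931291a31292119232c24322329342c341a312b3229212c122931311a2129232c241929292121141429292419192341333b4134342a393b393c3241323241392a49493c323b446152525c544a5a69645a525a62625c5c695a645c61626b61435c51495159543a4149534c324151513a49493a4b443941324149433a493a32434439391c1c313332312929212b2c212a2a3b3a3232333b443c313b393b1c1c31313331212b342c413232323b333b49393a3a4451513341493b3b493a434c4251513241493b49493a434c44545c526154546b5a5a595964535c62625a6b645a6a645963435151435a59493b4b544941333c41323b494132394439393a3b3932324124243339342911111111191909090b140c00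

/-- The check of the tree. -/
def chT (i : ℕ) : Bool :=
  decide (i = 0) || (decide (1 ≤ (treN >>> (8 * i)) % 8) && (decide ((treN >>> (8 * i)) % 8 < 5) &&
    decide ((treN >>> (8 * gj i ((treN >>> (8 * i)) % 8))) % 256 / 8 <
      (treN >>> (8 * i)) % 256 / 8)))

theorem chT_all : (allLt 480 chT) = true := by decide +kernel

/-- The facets over the walls agree with the tiling. -/
def chS (c l m : ℕ) : Bool :=
  decide (gj (12 * c + l) (m + 1) =
    12 * cls (rpc c + dv (nbt (MP55T.axl.getD c 0) l m).1) + (nbt (MP55T.axl.getD c 0) l m).2.1) &&
  allLt 4 fun v => decide (gp (12 * c + l) (m + 1) (v + 1) =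
    pm (nbt (MP55T.axl.getD c 0) l m).2.2 v + 1)

theorem chS_all : (allLt 40 fun c => allLt 12 fun l => allLt 4 fun m => chS c l m) = true := by
  decide +kernel

/-- The facets on the floor. -/
def chL (c l : ℕ) : Bool :=
  decide (gj (12 * c + l) 0 = 12 * prc c + (fle c l).1) &&
  allLt 4 fun v => decide (gp (12 * c + l) 0 (v + 1) = pm (fle c l).2 v + 1)

theorem chL_all : (allLt 40 fun c => allLt 12 fun l => chL c l) = true := by decide +kernel

theorem axl_eq : Lib_MP_55d5ef_c.axl = MP55T.axl := by decide +kernel

theorem W_eq : (allLt 3 fun a => allLt 12 fun l => allLt 4 fun m =>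
    decide (W a l m = Wt a l m)) = true := by decide +kernel

/-- The vertices of a tile are pairwise time-like related. -/
theorem neg_all : (allLt 3 fun a => allLt 12 fun l => allLt 4 fun m => allLt 4 fun m' =>
    decide (bf (Vz (W a l m)) (Vz (W a l m')) < 0)) = true := by decide +kernel

end H4C
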