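import Pool.Agent.Lib_MP_55d5ef_a2.Fre
import Pool.Agent.Lib_MP_55d5ef.DataA

/-!
# The group `Gam` satisfies `GData`
-/

namespace H4C

open Lib_MP_55d5ef_geo Lib_MP_55d5ef

theorem gdat : GData Gam where
  isom := Gam_isom
  fwd := Gam_fwd
  detone := Gam_detone
  adj := Gam_adj
  stab := MP55F.Gam_stab
  free := H4A2.Gam_free

end H4C
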