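import Pool.Agent.Lib_MP_55d5ef_c.Tab
import Pool.Agent.Lib_MP_55d5ef_q.QGK

/-!
# `MP_55d5ef_gt`, level B: the gluings of the table are realised by elements of `Γ`

Kernel checks of the table `tabN` (permutations, involution), and: every facet gluing is the
restriction of an element of `Gam` acting on the vectors `V10 i m`.
-/

open Matrix Lib_MP_55d5ef_geo Lib_MP_55d5ef Lib_MP_55d5ef_q

namespace Lib_MP_55d5ef_c

/-! ### Combinatorics of the table -/

/-- check of the permutations and of the involution -/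
def chkGlue (i k : ℕ) : Bool :=
  decide (gj i k < 480) && allLt 5 (fun m => decide (gp i k m < 5)) &&
  allLt 5 (fun m => allLt m (fun m' => decide (gp i k m ≠ gp i k m'))) &&
  decide (gp i k 0 = 0) &&
  decide (gj (gj i k) (gp i k k) = i) &&
  allLt 5 (fun m => decide (gp (gj i k) (gp i k k) (gp i k m) = m)) &&
  decide (¬ (gj i k = i ∧ gp i k k = k))

theorem chkGlue_all : allLt 480 (fun i => allLt 5 (fun k => chkGlue i k)) = true := by
  decide +kernel

theorem chkGlue_spec {i k : ℕ} (hi : i < 480) (hk : k < 5) :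
    gj i k < 480 ∧ (∀ m < 5, gp i k m < 5) ∧ (∀ m < 5, ∀ m' < m, gp i k m ≠ gp i k m') ∧
    gp i k 0 = 0 ∧ gj (gj i k) (gp i k k) = i ∧
    (∀ m < 5, gp (gj i k) (gp i k k) (gp i k m) = m) ∧ ¬ (gj i k = i ∧ gp i k k = k) := by
  have h := allLt_iff.mp (allLt_iff.mp chkGlue_all i hi) k hk
  unfold chkGlue at h
  simp only [Bool.and_eq_true, allLt_iff, decide_eq_true_eq] at h
  obtain ⟨⟨⟨⟨⟨⟨h1, h2⟩, h3⟩, h4⟩, h5⟩, h6⟩, h7⟩ := h
  exact ⟨h1, h2, h3, h4, h5, h6, h7⟩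

theorem gj_lt {i k : ℕ} (hi : i < 480) (hk : k < 5) : gj i k < 480 := (chkGlue_spec hi hk).1

theorem gp_lt {i k m : ℕ} (hi : i < 480) (hk : k < 5) (hm : m < 5) : gp i k m < 5 :=
  (chkGlue_spec hi hk).2.1 m hm

theorem gp_inj {i k m m' : ℕ} (hi : i < 480) (hk : k < 5) (hm : m < 5) (hm' : m' < 5)
    (h : gp i k m = gp i k m') : m = m' := by
  have h3 := (chkGlue_spec hi hk).2.2.1
  rcases lt_trichotomy m m' with h1 | h1 | h1
  · exact absurd h.symm (h3 m' hm' m h1)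
  · exact h1
  · exact absurd h (h3 m hm m' h1)

theorem gp_zero {i k : ℕ} (hi : i < 480) (hk : k < 5) : gp i k 0 = 0 :=
  (chkGlue_spec hi hk).2.2.2.1

/-- The gluing is an involution on the facets. -/
theorem gj_gj {i k : ℕ} (hi : i < 480) (hk : k < 5) : gj (gj i k) (gp i k k) = i :=
  (chkGlue_spec hi hk).2.2.2.2.1

theorem gp_gp {i k m : ℕ} (hi : i < 480) (hk : k < 5) (hm : m < 5) :
    gp (gj i k) (gp i k k) (gp i k m) = m :=
  (chkGlue_spec hi hk).2.2.2.2.2.1 m hm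

/-- No facet is glued to itself. -/
theorem no_fixed_facet {i k : ℕ} (hi : i < 480) (hk : k < 5) : ¬ (gj i k = i ∧ gp i k k = k) :=
  (chkGlue_spec hi hk).2.2.2.2.2.2

/-! ### The vertical facets -/

/-- `cls` in coordinates. -/
def clsN (x y z : ℤ) : ℕ :=
  (20 * (x % 2) + (z - 11 * y - 6 * (x - x % 2)) % 20).toNat

theorem cls_eq (k : Fin 3 → ℤ) : cls k = clsN (k 0) (k 1) (k 2) := rfl

/-- the gluings of the vertical facets of the table are the adjacencies of the tiling -/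
def chkNb (i m : ℕ) : Bool :=
  decide (gj i (m + 1) = 12 * clsN (repx (i / 12) + (nbD (ax (i / 12)) (i % 12) m).1)
    (nbD (ax (i / 12)) (i % 12) m).2.1 (repz (i / 12) + (nbD (ax (i / 12)) (i % 12) m).2.2)
    + nbL (ax (i / 12)) (i % 12) m) &&
  allLt 4 (fun v => decide (gp i (m + 1) (v + 1) = nbP (ax (i / 12)) (i % 12) m v + 1))

theorem chkNb_all : allLt 480 (fun i => allLt 4 (fun m => chkNb i m)) = true := by
  decide +kernel

/-- The neighbours of the vertical facets. -/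
theorem gj_succ {i m : ℕ} (hi : i < 480) (hm : m < 4) :
    gj i (m + 1) = 12 * cls ![repx (i / 12) + (nbD (ax (i / 12)) (i % 12) m).1,
      (nbD (ax (i / 12)) (i % 12) m).2.1, repz (i / 12) + (nbD (ax (i / 12)) (i % 12) m).2.2]
      + nbL (ax (i / 12)) (i % 12) m := by
  have h := allLt_iff.mp (allLt_iff.mp chkNb_all i hi) m hm
  unfold chkNb at h
  simp only [Bool.and_eq_true, allLt_iff, decide_eq_true_eq] at h
  exact h.1

/-- The matchings of the vertical facets. -/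
theorem gp_succ {i m v : ℕ} (hi : i < 480) (hm : m < 4) (hv : v < 4) :
    gp i (m + 1) (v + 1) = nbP (ax (i / 12)) (i % 12) m v + 1 := by
  have h := allLt_iff.mp (allLt_iff.mp chkNb_all i hi) m hm
  unfold chkNb at h
  simp only [Bool.and_eq_true, allLt_iff, decide_eq_true_eq] at h
  exact h.2 v hv

/-- the form of two vectors of `K` in coordinates -/
def Bz (d w : ℤ × ℤ × ℤ) : ℤ :=
  (2 * d.1 - d.2.1 - d.2.2) * w.1 + (2 * d.2.1 - d.1) * w.2.1 + (4 * d.2.2 - d.1) * w.2.2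

theorem Vz_TM {d w w' : ℤ × ℤ × ℤ} (h1 : w.1 = w'.1 + 10 * d.1) (h2 : w.2.1 = w'.2.1 + 10 * d.2.1)
    (h3 : w.2.2 = w'.2.2 + 10 * d.2.2) (h4 : Bz d w' + 10 * qK d.1 d.2.1 d.2.2 = 0) :
    Vz w = TM d.1 d.2.1 d.2.2 *ᵥ Vz w' := by
  rw [TM_mulVec]
  unfold Bz at h4
  funext t
  fin_cases t
  · change (10 : ℤ) = 10 + (2 * d.1 - d.2.1 - d.2.2) * w'.1 + (2 * d.2.1 - d.1) * w'.2.1 +
      (4 * d.2.2 - d.1) * w'.2.2 + qK d.1 d.2.1 d.2.2 * 10
    linarith
  · change w.1 = w'.1 + d.1 * 10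
    linarith
  · change w.2.1 = w'.2.1 + d.2.1 * 10
    linarith
  · change w.2.2 = w'.2.2 + d.2.2 * 10
    linarith
  · rfl

/-- check of one facet of the tiling: the displaced vertices of the neighbour are the vertices of
the tile, and they have equal distance from `0` and `δ` -/
def chkW (a l m : ℕ) : Bool :=
  decide (nbL a l m < 12) &&
  decide (nbD a l m = (0, 0, 0) ∨ 4 ≤ nbL a l m) &&
  allLt 4 (fun v => decide (nbP a l m v < 4)) &&
  allLt 4 (fun v => decide (v = m) ||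
    (decide ((W a l v).1 = (W a (nbL a l m) (nbP a l m v)).1 + 10 * (nbD a l m).1) &&
    decide ((W a l v).2.1 = (W a (nbL a l m) (nbP a l m v)).2.1 + 10 * (nbD a l m).2.1) &&
    decide ((W a l v).2.2 = (W a (nbL a l m) (nbP a l m v)).2.2 + 10 * (nbD a l m).2.2) &&
    decide (Bz (nbD a l m) (W a (nbL a l m) (nbP a l m v)) +
      10 * qK (nbD a l m).1 (nbD a l m).2.1 (nbD a l m).2.2 = 0)))

/-- the tiles `l ≥ 4` do not depend on the axis -/
def chkAx (a l : ℕ) : Bool := allLt 4 (fun v => decide (l < 4 ∨ W a l v = W 0 l v))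

theorem chkW_all : allLt 3 (fun a => allLt 12 (fun l => allLt 4 (fun m => chkW a l m))) = true := by
  decide +kernel

theorem chkAx_all : allLt 3 (fun a => allLt 12 (fun l => chkAx a l)) = true := by
  decide +kernel

theorem ax_all : allLt 40 (fun c => decide (ax c < 3)) = true := by
  decide +kernel

theorem ax_lt {c : ℕ} (hc : c < 40) : ax c < 3 := by
  simpa using allLt_iff.mp ax_all c hc

theorem W_ax {a a' l v : ℕ} (ha : a < 3) (ha' : a' < 3) (hl : l < 12) (h4 : 4 ≤ l) (hv : v < 4) :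
    W a l v = W a' l v := by
  have h := allLt_iff.mp (allLt_iff.mp (allLt_iff.mp chkAx_all a ha) l hl) v hv
  have h' := allLt_iff.mp (allLt_iff.mp (allLt_iff.mp chkAx_all a' ha') l hl) v hv
  simp only [decide_eq_true_eq] at h h'
  rcases h with h | h
  · omega
  rcases h' with h' | h'
  · omega
  rw [h, h']

theorem chkW_spec {a l m : ℕ} (ha : a < 3) (hl : l < 12) (hm : m < 4) :
    nbL a l m < 12 ∧ (nbD a l m = (0, 0, 0) ∨ 4 ≤ nbL a l m) ∧ (∀ v < 4, nbP a l m v < 4) ∧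
    ∀ v < 4, v ≠ m → Vz (W a l v) =
      TM (nbD a l m).1 (nbD a l m).2.1 (nbD a l m).2.2 *ᵥ
        Vz (W a (nbL a l m) (nbP a l m v)) := by
  have h := allLt_iff.mp (allLt_iff.mp (allLt_iff.mp chkW_all a ha) l hl) m hm
  unfold chkW at h
  simp only [Bool.and_eq_true, Bool.or_eq_true, allLt_iff, decide_eq_true_eq] at h
  obtain ⟨⟨⟨h1, h2⟩, h3⟩, h4⟩ := h
  refine ⟨h1, h2, h3, fun v hv hvm => ?_⟩
  rcases h4 v hv with h5 | ⟨⟨⟨h5, h6⟩, h7⟩, h8⟩
  · exact absurd h5 hvm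
  exact Vz_TM h5 h6 h7 h8

theorem V10_succ (i v : ℕ) : V10 i (v + 1) =
    TM (repx (i / 12)) 0 (repz (i / 12)) *ᵥ Vz (W (ax (i / 12)) (i % 12) v) := by
  unfold V10
  rw [if_neg (Nat.succ_ne_zero v), Nat.add_sub_cancel]

theorem V10_zero (i : ℕ) : V10 i 0 = e5 := by
  unfold V10
  rw [if_pos rfl]

theorem TM_e5' (x y z : ℤ) : TM x y z *ᵥ (e5 : Fin 5 → ℤ) = e5 := by
  rw [TM_mulVec]
  funext t
  fin_cases t <;> simp [e5]

theorem clsN_all : allLt 40 (fun c => decide (clsN (repx c) 0 (repz c) = c)) = true := by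
  decide +kernel

theorem cls_rep {c : ℕ} (hc : c < 40) : cls ![repx c, 0, repz c] = c := by
  have h := allLt_iff.mp clsN_all c hc
  rw [decide_eq_true_eq] at h
  exact h

theorem glue_vert {i m : ℕ} (hi : i < 480) (hm : m < 4) :
    ∃ g ∈ Gam, ∀ v < 5, v ≠ m + 1 → g.1 *ᵥ V10 i v = V10 (gj i (m + 1)) (gp i (m + 1) v) := by
  have hc : i / 12 < 40 := by omega
  have hl : i % 12 < 12 := Nat.mod_lt _ (by norm_num)
  set c := i / 12 with hcdef
  set l := i % 12 with hldef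
  have ha := ax_lt hc
  obtain ⟨h1, h2, h3, h4⟩ := chkW_spec ha hl hm
  have hgj := gj_succ hi hm
  rw [← hcdef, ← hldef] at hgj
  set k : Fin 3 → ℤ := ![repx c + (nbD (ax c) l m).1, (nbD (ax c) l m).2.1,
    repz c + (nbD (ax c) l m).2.2] with hk
  obtain ⟨hc', hlam⟩ := cls_spec k
  have hk0 : k 0 = repx c + (nbD (ax c) l m).1 := rfl
  have hk1 : k 1 = (nbD (ax c) l m).2.1 := rfl
  have hk2 : k 2 = repz c + (nbD (ax c) l m).2.2 := rfl
  have hdiv : gj i (m + 1) / 12 = cls k := by rw [hgj]; omega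
  have hmod : gj i (m + 1) % 12 = nbL (ax c) l m := by rw [hgj]; omega
  refine ⟨TG (-(k 0 - repx (cls k))) (-(k 1)) (-(k 2 - repz (cls k))),
    TG_mem (InLam_neg hlam), fun v hv hvm => ?_⟩
  rcases Nat.eq_zero_or_pos v with h0 | h0
  · subst h0
    rw [gp_zero hi (by omega), V10_zero, V10_zero, TG_val, TM_e5']
  obtain ⟨v', rfl⟩ : ∃ v', v = v' + 1 := ⟨v - 1, by omega⟩
  have hv' : v' < 4 := by omega
  rw [gp_succ hi hm hv', V10_succ, V10_succ, hdiv, hmod, ← hcdef, ← hldef,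
    h4 v' hv' (by omega)]
  have hW : W (ax (cls k)) (nbL (ax c) l m) (nbP (ax c) l m v') =
      W (ax c) (nbL (ax c) l m) (nbP (ax c) l m v') := by
    rcases h2 with h2 | h2
    · have hkk : cls k = c := by
        have : k = ![repx c, 0, repz c] := by
          rw [hk, h2]
          simp
        rw [this]
        exact cls_rep hc
      rw [hkk]
    · exact W_ax (ax_lt hc') ha h1 h2 (h3 v' hv')
  rw [hW, TG_val, Matrix.mulVec_mulVec, TM_mul, Matrix.mulVec_mulVec, TM_mul]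
  congr 1
  rw [hk0, hk1, hk2]
  congr 1 <;> ring

/-! ### The floor facets -/

/-- the reflection on the scaled points -/
def SW (A : ℕ) (w : ℤ × ℤ × ℤ) : ℤ × ℤ × ℤ :=
  if A = 3 then (-w.1 + w.2.1 + w.2.2, w.2.1, w.2.2)
  else if A = 4 then (-w.2.1 + w.2.2, -w.1 + w.2.2, w.2.2)
  else (w.1, w.1 - w.2.1, w.2.2)

theorem SM_Vz (A : ℕ) (w : ℤ × ℤ × ℤ) : SM A *ᵥ Vz w = Vz (SW A w) := by
  unfold SM SW
  split_ifs <;>
  · funext t
    fin_cases t <;> simp [Vz, Matrix.mulVec, dotProduct, Fin.sum_univ_succ] <;> ring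

theorem JM_Vz (w : ℤ × ℤ × ℤ) : JM *ᵥ Vz w = Vz w := by
  rw [JM_mulVec]
  funext t
  fin_cases t <;> simp [Vz]

/-- check of the floor gluings -/
def chkFl (i : ℕ) : Bool :=
  decide (gj i 0 / 12 = (pairs.getD (i / 12) (0, 0)).1) &&
  allLt 4 (fun v => decide (1 ≤ gp i 0 (v + 1)) &&
    decide (SW (pairs.getD (i / 12) (0, 0)).2 (W (ax (i / 12)) (i % 12) v) =
    W (ax (gj i 0 / 12)) (gj i 0 % 12) (gp i 0 (v + 1) - 1)))

theorem chkFl_all : allLt 480 (fun i => chkFl i) = true := by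
  decide +kernel

theorem chkFl_spec {i : ℕ} (hi : i < 480) :
    gj i 0 / 12 = (pairs.getD (i / 12) (0, 0)).1 ∧
    ∀ v < 4, 1 ≤ gp i 0 (v + 1) ∧
      SW (pairs.getD (i / 12) (0, 0)).2 (W (ax (i / 12)) (i % 12) v) =
      W (ax (gj i 0 / 12)) (gj i 0 % 12) (gp i 0 (v + 1) - 1) := by
  have h := allLt_iff.mp chkFl_all i hi
  unfold chkFl at h
  simpa only [Bool.and_eq_true, allLt_iff, decide_eq_true_eq] using h

theorem glue_floor {i : ℕ} (hi : i < 480) :
    side (i / 12) ∈ Gam ∧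
      ∀ v < 5, v ≠ 0 → (side (i / 12)).1 *ᵥ V10 i v = V10 (gj i 0) (gp i 0 v) := by
  refine ⟨side_mem _ (by omega), fun v hv h0 => ?_⟩
  obtain ⟨v', rfl⟩ : ∃ v', v = v' + 1 := ⟨v - 1, by omega⟩
  obtain ⟨h1, h2⟩ := chkFl_spec hi
  obtain ⟨h3, h4⟩ := h2 v' (by omega)
  obtain ⟨w, hw⟩ : ∃ w, gp i 0 (v' + 1) = w + 1 := ⟨gp i 0 (v' + 1) - 1, by omega⟩
  rw [hw, V10_succ, V10_succ, h1]
  rw [hw, Nat.add_sub_cancel, h1] at h4
  unfold side
  rw [TG_inv]
  simp only [Units.val_mul, ← Matrix.mulVec_mulVec, TG_val]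
  have e1 : (JG.1 : Matrix (Fin 5) (Fin 5) ℤ) = JM := rfl
  have e2 : ∀ A, ((SG A).1 : Matrix (Fin 5) (Fin 5) ℤ) = SM A := fun _ => rfl
  rw [e1, e2, ← h4, ← SM_Vz]
  congr 2
  conv_rhs => rw [← JM_Vz]
  congr 1
  rw [Matrix.mulVec_mulVec, TM_mul]
  have e3 : TM (-repx (i / 12) + repx (i / 12)) (-0 + 0) (-repz (i / 12) + repz (i / 12)) =
      (1 : Matrix (Fin 5) (Fin 5) ℤ) := by
    rw [← TM_zero]
    congr 1 <;> ring
  rw [e3, Matrix.one_mulVec]

/-- **Every gluing of the table is realised by an element of `Γ`.** -/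
theorem glue {i k : ℕ} (hi : i < 480) (hk : k < 5) :
    ∃ g ∈ Gam, ∀ m < 5, m ≠ k → g.1 *ᵥ V10 i m = V10 (gj i k) (gp i k m) := by
  rcases Nat.eq_zero_or_pos k with h0 | h0
  · subst h0
    exact ⟨side (i / 12), (glue_floor hi).1, (glue_floor hi).2⟩
  · obtain ⟨m, rfl⟩ : ∃ m, k = m + 1 := ⟨k - 1, by omega⟩
    exact glue_vert hi (by omega)

theorem act_toR (g : GL (Fin 5) ℤ) (v : Fin 5 → ℤ) : act g (toR v) = toR (g.1 *ᵥ v) := by
  funext t
  simp only [act, toR, Matrix.mulVec, dotProduct, Matrix.map_apply]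
  push_cast
  rfl

/-- The real form of `glue`. -/
theorem glue_act {i k : ℕ} (hi : i < 480) (hk : k < 5) :
    ∃ g ∈ Gam, ∀ m < 5, m ≠ k →
      act g (toR (V10 i m)) = toR (V10 (gj i k) (gp i k m)) := by
  obtain ⟨g, hg, h⟩ := glue hi hk
  exact ⟨g, hg, fun m hm hmk => by rw [act_toR, h m hm hmk]⟩

end Lib_MP_55d5ef_c
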