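import Pool.Agent.Lib_MP_55d5ef_c.CPhi
import Pool.Agent.Lib_MP_55d5ef_c.GD
import Pool.Agent.Lib_MP_55d5ef_c.Glue

/-!
# The 480 pentachora without the ideal vertex are the hyperbolic manifold
-/

open Matrix Topology

namespace H4C

open Lib_MP_55d5ef_geo Lib_MP_55d5ef Lib_MP_55d5ef_q MP55T Fl49 Lib_MP_55d5ef_c

/-- The vertices of the pentachora in Minkowski space. -/
noncomputable def VC (i : Fin 480) (m : Fin 5) : Fin 5 → ℝ :=
  if m = 0 then e5 else (1 / 10 : ℝ) • toR (V10 i m)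

theorem VC_zero (i : Fin 480) : VC i 0 = e5 := by
  unfold VC
  rw [if_pos rfl]

theorem bv_Vz (w : ℤ × ℤ × ℤ) : (1 / 10 : ℝ) • toR (Vz w) = bv (rv w) 0 := by
  funext i
  fin_cases i <;> simp [bv, rv, toR, Vz] <;> ring

/-- The tile of a record. -/
def tl (i : Fin 480) : Tl := (rpc (i.1 / 12), i.1 % 12)

theorem tl_lt (i : Fin 480) : (tl i).2 < 12 := Nat.mod_lt _ (by norm_num)

theorem div_lt (i : Fin 480) : i.1 / 12 < 40 := by
  have := i.2
  omega

theorem cls_tl (i : Fin 480) : cls (tl i).1 = i.1 / 12 := chk_cls _ (div_lt i)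

theorem W_Wt {a l m : ℕ} (ha : a < 3) (hl : l < 12) (hm : m < 4) : W a l m = Wt a l m :=
  of_decide_eq_true (allLt_iff.1 (allLt_iff.1 (allLt_iff.1 W_eq a ha) l hl) m hm)

theorem ax_tl (i : Fin 480) : ax (i.1 / 12) = axk (tl i).1 := by
  unfold ax axk
  rw [cls_tl, axl_eq]

theorem VC_LV (i : Fin 480) {v : ℕ} (hv : v < 4) (m : Fin 5) (hm : m.1 = v + 1) :
    VC i m = LV (tl i) v := by
  have hm0 : m ≠ 0 := by
    intro h
    rw [h] at hm
    exact absurd hm (by simp)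
  have e1 : V10 i m = (TG (repx (i.1 / 12)) 0 (repz (i.1 / 12))).1 *ᵥ
      Vz (Wt (axk (tl i).1) (i.1 % 12) v) := by
    have h1 : V10 i m = TM (repx (i.1 / 12)) 0 (repz (i.1 / 12)) *ᵥ
        Vz (W (ax (i.1 / 12)) (i.1 % 12) (m.1 - 1)) := by
      unfold V10
      rw [if_neg (by omega)]
    have h2 : m.1 - 1 = v := by omega
    rw [h1, TG_val, ax_tl, h2, W_Wt (axk_lt _) (show i.1 % 12 < 12 from tl_lt i) hv]
  unfold VC LV
  rw [if_neg hm0, e1, ← Lib_MP_55d5ef_geo.act_toR, ← act_smul, bv_Vz]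
  rfl

theorem bf_VC (i : Fin 480) {v v' : ℕ} (hv : v < 4) (hv' : v' < 4) :
    bf (LV (tl i) v) (LV (tl i) v') < 0 := by
  unfold LV
  rw [bf_act _ (iso_TG _ _ _), ← bv_Vz, ← bv_Vz, bf_smul_left, bf_smul_right, bf_toR]
  have h := allLt_iff.1 (allLt_iff.1 (allLt_iff.1 (allLt_iff.1 neg_all _ (axk_lt (tl i).1)) _
    (tl_lt i)) v hv) v' hv'
  have h1 := of_decide_eq_true h
  rw [W_Wt (axk_lt _) (tl_lt i) hv, W_Wt (axk_lt _) (tl_lt i) hv'] at h1
  have h2 : ((bf (Vz (Wt (axk (tl i).1) (tl i).2 v)) (Vz (Wt (axk (tl i).1) (tl i).2 v')) : ℤ) : ℝ)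
      < 0 := by exact_mod_cast h1
  linarith

theorem exists_v (m : Fin 5) (hm : m ≠ 0) : ∃ v < 4, m.1 = v + 1 := by
  have h1 : m.1 ≠ 0 := fun h => hm (Fin.ext h)
  have h2 := m.2
  exact ⟨m.1 - 1, by omega, by omega⟩

theorem pentC (i : Fin 480) : Pent (VC i) where
  zero := VC_zero i
  four := by
    intro m hm
    obtain ⟨v, hv, hmv⟩ := exists_v m hm
    rw [VC_LV i hv m hmv]
    unfold LV
    rw [act_TG]
    simp [bv]
  neg := by
    intro m m' hm hm'
    obtain ⟨v, hv, hmv⟩ := exists_v m hm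
    obtain ⟨v', hv', hmv'⟩ := exists_v m' hm'
    rw [VC_LV i hv m hmv, VC_LV i hv' m' hmv']
    exact bf_VC i hv hv'

theorem smul_Up {y : Fin 5 → ℝ} {c : ℝ} (hc : 0 < c) (hy : y ∈ Up) : c • y ∈ Up := by
  refine ⟨?_, ?_⟩
  · rw [bf_smul_left, bf_smul_right]
    have := hy.1
    have h1 : 0 < c * c := by positivity
    nlinarith
  · show 0 < c * y 4
    have := hy.2
    positivity

theorem nrm_smul {y : Fin 5 → ℝ} {c : ℝ} (hc : 0 < c) (hy : y ∈ Up) : nrm (c • y) = nrm y := by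
  unfold nrm
  have h1 : 0 < -bf y y := by
    have := hy.1
    linarith
  have h2 : -bf (c • y) (c • y) = c ^ 2 * (-bf y y) := by
    rw [bf_smul_left, bf_smul_right]
    ring
  rw [h2, Real.sqrt_mul (by positivity), Real.sqrt_sq hc.le, smul_smul]
  congr 1
  have h3 := (Real.sqrt_pos.2 h1).ne'
  field_simp

theorem hl_smul {y : Fin 5 → ℝ} {c : ℝ} (hc : 0 < c) (hy : y ∈ Up) : hl (c • y) = hl y := by
  apply Subtype.ext
  rw [hl_val (smul_Up hc hy), hl_val hy, nrm_smul hc hy]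

/-- The floor coordinates of a point of a pentachoron. -/
noncomputable def bt (x : Fin 5 → ℝ) (v : ℕ) : ℝ :=
  if h : v < 4 then x ⟨v + 1, by omega⟩ / (1 - x 0) else 0

theorem bt_sum {x : Fin 5 → ℝ} (hx : x ∈ Dl (Finset.univ : Finset (Fin 5))) (h0 : x 0 < 1) :
    bt x 0 + bt x 1 + bt x 2 + bt x 3 = 1 := by
  have h1 : ∑ m, x m = 1 := hx.2.2
  rw [Fin.sum_univ_five] at h1
  unfold bt
  simp only [show (0 : ℕ) < 4 by norm_num, show (1 : ℕ) < 4 by norm_num,
    show (2 : ℕ) < 4 by norm_num, show (3 : ℕ) < 4 by norm_num, dif_pos]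
  show x 1 / (1 - x 0) + x 2 / (1 - x 0) + x 3 / (1 - x 0) + x 4 / (1 - x 0) = 1
  have h2 : 0 < 1 - x 0 := by linarith
  field_simp
  linarith

theorem bt_nonneg {x : Fin 5 → ℝ} (hx : x ∈ Dl (Finset.univ : Finset (Fin 5))) (h0 : x 0 < 1)
    (v : ℕ) : 0 ≤ bt x v := by
  unfold bt
  split_ifs
  · exact div_nonneg (hx.1 _) (by linarith)
  · exact le_refl 0

/-- The height. -/
noncomputable def ht (x : Fin 5 → ℝ) : ℝ := x 0 / (1 - x 0)

theorem ht_nonneg {x : Fin 5 → ℝ} (hx : x ∈ Dl (Finset.univ : Finset (Fin 5))) (h0 : x 0 < 1) :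
    0 ≤ ht x := div_nonneg (hx.1 0) (by linarith)

theorem YY_QQ (i : Fin 480) {x : Fin 5 → ℝ} (h0 : x 0 < 1) :
    YY (VC i) x = (1 - x 0) • QQ (tl i) (bt x) (ht x) := by
  have h2 : (1 - x 0) ≠ 0 := by linarith
  unfold YY QQ
  rw [Fin.sum_univ_five, VC_zero, VC_LV i (show 0 < 4 by norm_num) 1 rfl,
    VC_LV i (show 1 < 4 by norm_num) 2 rfl, VC_LV i (show 2 < 4 by norm_num) 3 rfl,
    VC_LV i (show 3 < 4 by norm_num) 4 rfl]
  simp only [smul_add, smul_smul]
  have e0 : (1 - x 0) * bt x 0 = x 1 := by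
    unfold bt
    rw [dif_pos (by norm_num)]
    show (1 - x 0) * (x 1 / (1 - x 0)) = x 1
    field_simp
  have e1 : (1 - x 0) * bt x 1 = x 2 := by
    unfold bt
    rw [dif_pos (by norm_num)]
    show (1 - x 0) * (x 2 / (1 - x 0)) = x 2
    field_simp
  have e2 : (1 - x 0) * bt x 2 = x 3 := by
    unfold bt
    rw [dif_pos (by norm_num)]
    show (1 - x 0) * (x 3 / (1 - x 0)) = x 3
    field_simp
  have e3 : (1 - x 0) * bt x 3 = x 4 := by
    unfold bt
    rw [dif_pos (by norm_num)]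
    show (1 - x 0) * (x 4 / (1 - x 0)) = x 4
    field_simp
  have e4 : (1 - x 0) * ht x = x 0 := by
    unfold ht
    field_simp
  rw [e0, e1, e2, e3, e4]
  abel

/-- The tile of a record contains its points. -/
theorem inT_posT (i : Fin 480) {x : Fin 5 → ℝ} (hx : x ∈ Dl (Finset.univ : Finset (Fin 5)))
    (h0 : x 0 < 1) : inT (posT (tl i) (bt x)) (tl i) := by
  refine ⟨tl_lt i, fun m hm => ?_⟩
  rw [bb_posT _ (tl_lt i) _ (bt_sum hx h0) hm]
  exact bt_nonneg hx h0 m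

/-- The parameters of a point of a pentachoron. -/
noncomputable def pa (z : ZC) : P3 × NNReal :=
  (posT (tl z.1.1) (bt z.2.1), sp (posT (tl z.1.1) (bt z.2.1)) (ht z.2.1))

theorem hl_pa (z : ZC) (h0 : z.2.1 0 < 1) : pr (hl (YY (VC z.1.1) z.2.1)) = prj (pa z) := by
  have hx := z.2.2
  have hT := inT_posT z.1.1 hx h0
  obtain ⟨h1, h2⟩ := hl_QQ (t := tl z.1.1) (bt_sum hx h0) (inVor hT) (ht_nonneg hx h0)
  rw [YY_QQ z.1.1 h0, hl_smul (by linarith) h1]
  unfold pr prj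
  congr 1
  exact Subtype.ext h2

theorem Phi_pa (z : ZC) (h0 : z.2.1 0 < 1) : Phi (pa z) = Quot.mk RC z := by
  have hx := z.2.2
  have hT := inT_posT z.1.1 hx h0
  unfold pa
  rw [Phi_eq _ hT]
  congr 1
  refine kap_ext (Fin.ext ?_) ?_
  · show 12 * cls (tl z.1.1).1 + z.1.1.1 % 12 = z.1.1.1
    rw [cls_tl]
    exact Nat.div_add_mod _ _
  · rw [kap_x, isp_sp _ (ht_nonneg hx h0)]
    have h2 : (1 - z.2.1 0) ≠ 0 := by linarith
    have h3 : 1 + ht z.2.1 = 1 / (1 - z.2.1 0) := by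
      unfold ht
      field_simp
      ring
    have key : ∀ v (hv : v < 4), xv (fun m => bb (tl z.1.1) m (posT (tl z.1.1) (bt z.2.1)))
        (ht z.2.1) ⟨v + 1, by omega⟩ = z.2.1 ⟨v + 1, by omega⟩ := by
      intro v hv
      rw [xv_succ _ _ _ v hv rfl, bb_posT _ (tl_lt _) _ (bt_sum hx h0) hv, h3]
      unfold bt
      rw [dif_pos hv]
      field_simp
    funext m
    by_cases hm : m = 0
    · subst hm
      rw [xv_zero, h3]
      unfold ht
      field_simp
    · obtain ⟨v, hv, hmv⟩ := exists_v m hm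
      have : m = ⟨v + 1, by omega⟩ := Fin.ext hmv
      rw [this]
      exact key v hv

theorem injC (z z' : ZC) (h0 : z.2.1 0 < 1) (h0' : z'.2.1 0 < 1)
    (h : pr (hl (YY (VC z.1.1) z.2.1)) = pr (hl (YY (VC z'.1.1) z'.2.1))) :
    (Quot.mk RC z : X labU numC odC SC) = Quot.mk RC z' := by
  rw [hl_pa z h0, hl_pa z' h0', prj_eq_iff gdat] at h
  rw [← Phi_pa z h0, ← Phi_pa z' h0']
  exact Phi_eqv h

theorem kap_lt {t : Tl} {z : P3} (s : NNReal) (h : inT z t) : (kap t z s h).2.1 0 < 1 := by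
  rw [kap_x, xv_zero]
  have := isp_nonneg z s
  rw [div_lt_one (by linarith)]
  linarith

theorem surjC (y : HL) : ∃ z : ZC, z.2.1 0 < 1 ∧ pr (hl (YY (VC z.1.1) z.2.1)) = pr y := by
  obtain ⟨⟨z, s⟩, hzs⟩ := prj_surjective gdat (pr y)
  obtain ⟨⟨k, l⟩, ht⟩ := cover z
  refine ⟨kap (k, l) z s ht, kap_lt s ht, ?_⟩
  rw [hl_pa _ (kap_lt s ht), ← hzs, prj_eq_iff gdat]
  -- the translation to the representative cell
  obtain ⟨-, hsp⟩ := cls_spec k
  set lam : Fin 3 → ℤ := rpc (cls k) - k with hlam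
  have hl : InLam (lam 0) (lam 1) (lam 2) := by
    obtain ⟨⟨a, ha⟩, ⟨b, hb⟩⟩ := hsp
    refine ⟨⟨-a, ?_⟩, ⟨-b, ?_⟩⟩
    · show repx (cls k) - k 0 = _
      linarith
    · show (repz (cls k) - k 2) - 6 * (repx (cls k) - k 0) - 11 * (0 - k 1) = _
      linarith
  have hrec : tl (kap (k, l) z s ht).1.1 = (k + lam, l) := by
    show ((rpc ((12 * cls k + l) / 12), (12 * cls k + l) % 12) : Tl) = (k + lam, l)
    have h12 : l < 12 := ht.1
    have e1 : (12 * cls k + l) / 12 = cls k := by omega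
    have e2 : (12 * cls k + l) % 12 = l := by omega
    rw [e1, e2, hlam, add_sub_cancel]
  have hbt : ∀ v < 4, bt (kap (k, l) z s ht).2.1 v = bb (k, l) v z := by
    intro v hv
    unfold bt
    rw [dif_pos hv, kap_x, xv_zero, xv_succ _ _ _ v hv rfl]
    have h1 := isp_nonneg z s
    have h2 : 1 + isp z s ≠ 0 := by linarith
    field_simp
    ring
  have hpos : posT (k + lam, l) (bt (kap (k, l) z s ht).2.1) = z + kz lam := by
    have e1 : posT (k + lam, l) (bt (kap (k, l) z s ht).2.1) =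
        posT (k + lam, l) (fun m => bb (k + lam, l) m (z + kz lam)) := by
      unfold posT
      simp only [bb_add k lam hl]
      rw [hbt 0 (by norm_num), hbt 1 (by norm_num), hbt 2 (by norm_num), hbt 3 (by norm_num)]
    rw [e1]
    exact posT_bb (k + lam, l) ht.1 (z + kz lam)
  have hheight : H4C.ht (kap (k, l) z s ht).2.1 = isp z s := by
    unfold H4C.ht
    rw [kap_x, xv_zero]
    have h1 := isp_nonneg z s
    have h2 : 1 + isp z s ≠ 0 := by linarith
    field_simp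
    ring
  have hpa : pa (kap (k, l) z s ht) = (z + kz lam, s) := by
    unfold pa
    rw [hrec, hpos, hheight, sp_add, sp_isp]
  rw [hpa]
  exact Relation.EqvGen.symm _ _ (Relation.EqvGen.rel _ _ (step.trans z s lam hl))

/-- All ideal vertices are identified. -/
theorem infC_aux (n : ℕ) : ∀ z : ZC, z.2.1 0 = 1 → (treN >>> (8 * z.1.1.1)) % 256 / 8 ≤ n →
    ∀ z₀ : ZC, z₀.1.1.1 = 0 → z₀.2.1 0 = 1 →
      (Quot.mk RC z : X labU numC odC SC) = Quot.mk RC z₀ := by
  have hone : ∀ z : ZC, z.2.1 0 = 1 → ∀ m, m ≠ 0 → z.2.1 m = 0 := by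
    intro z hz m hm
    have h1 : ∑ m, z.2.1 m = 1 := z.2.2.2.2
    have h2 := Finset.add_sum_erase Finset.univ z.2.1 (Finset.mem_univ (0 : Fin 5))
    rw [h1, hz] at h2
    have h3 : ∑ m ∈ Finset.univ.erase (0 : Fin 5), z.2.1 m = 0 := by linarith
    exact (Finset.sum_eq_zero_iff_of_nonneg fun m _ => z.2.2.1 m).1 h3 m
      (Finset.mem_erase.2 ⟨hm, Finset.mem_univ m⟩)
  induction n with
  | zero =>
    intro z hz hn z₀ h₀ hz₀
    have h1 := allLt_iff.1 chT_all z.1.1.1 z.1.1.2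
    simp only [chT, Bool.or_eq_true, Bool.and_eq_true, decide_eq_true_eq] at h1
    rcases h1 with h1 | ⟨-, -, h1⟩
    · congr 1
      refine kap_ext (Fin.ext (h1.trans h₀.symm)) ?_
      funext m
      by_cases hm : m = 0
      · rw [hm, hz, hz₀]
      · rw [hone z hz m hm, hone z₀ hz₀ m hm]
    · omega
  | succ n ih =>
    intro z hz hn z₀ h₀ hz₀
    have h1 := allLt_iff.1 chT_all z.1.1.1 z.1.1.2
    simp only [chT, Bool.or_eq_true, Bool.and_eq_true, decide_eq_true_eq] at h1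
    rcases h1 with h1 | ⟨h2, h3, h4⟩
    · congr 1
      refine kap_ext (Fin.ext (h1.trans h₀.symm)) ?_
      funext m
      by_cases hm : m = 0
      · rw [hm, hz, hz₀]
      · rw [hone z hz m hm, hone z₀ hz₀ m hm]
    · set k : Fin 5 := ⟨(treN >>> (8 * z.1.1.1)) % 8, h3⟩ with hk
      have hk0 : k ≠ 0 := by
        intro h
        have : k.1 = 0 := congrArg Fin.val h
        have h5 : 1 ≤ k.1 := h2
        omega
      -- the same vertex in the neighbour
      let y : Fin 5 → ℝ := Pi.single 0 1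
      have hy : y ∈ Dl (Finset.univ : Finset (Fin 5)) := by
        refine ⟨fun m => ?_, fun m hm => absurd (Finset.mem_univ m) hm, ?_⟩
        · by_cases hm : m = 0
          · rw [hm]
            simp [y]
          · simp [y, hm]
        · simp [y]
      let z' : ZC := ⟨⟨nj z.1.1 k, Set.mem_univ _⟩, ⟨y, hy⟩⟩
      have hz' : z'.2.1 0 = 1 := by simp [z', y]
      have h5 : (Quot.mk RC z : X labU numC odC SC) = Quot.mk RC z' := by
        refine RC_glue k (hone z hz k hk0) rfl fun m => ?_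
        by_cases hm : m = 0
        · rw [hm, np_zero, hz, hz']
        · rw [hone z hz m hm]
          refine hone z' hz' _ fun h => hm ?_
          rw [← np_zero z.1.1 k] at h
          exact np_inj _ _ h
      rw [h5]
      refine ih z' hz' ?_ z₀ h₀ hz₀
      have h6 : (treN >>> (8 * (nj z.1.1 k).1)) % 256 / 8 < (treN >>> (8 * z.1.1.1)) % 256 / 8 := h4
      show (treN >>> (8 * (nj z.1.1 k).1)) % 256 / 8 ≤ n
      omega

theorem infC (z z' : ZC) (hz : z.2.1 0 = 1) (hz' : z'.2.1 0 = 1) :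
    (Quot.mk RC z : X labU numC odC SC) = Quot.mk RC z' := by
  have hy : (Pi.single 0 1 : Fin 5 → ℝ) ∈ Dl (Finset.univ : Finset (Fin 5)) := by
    refine ⟨fun m => ?_, fun m hm => absurd (Finset.mem_univ m) hm, ?_⟩
    · by_cases hm : m = 0
      · rw [hm]
        simp
      · simp [hm]
    · simp
  let z₀ : ZC := ⟨⟨0, Set.mem_univ _⟩, ⟨Pi.single 0 1, hy⟩⟩
  have h0 : z₀.2.1 0 = 1 := by simp [z₀]
  rw [infC_aux _ z hz le_rfl z₀ rfl h0, infC_aux _ z' hz' le_rfl z₀ rfl h0]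

theorem levC (z z' : ZC) (h : RC z z') : z.2.1 0 = z'.2.1 0 := by
  rcases RC_spec h with ⟨-, h2⟩ | ⟨k, -, -, h3⟩
  · rw [h2]
  · have := h3 0
    rw [np_zero] at this
    exact this.symm

/-- The gluings are realised in the group: `hglue` is the kernel check on the vertices. -/
theorem glueC (hglue : ∀ i < 480, ∀ k < 5, ∃ g ∈ Gam, ∀ m < 5, m ≠ k →
    g.1 *ᵥ V10 i m = V10 (gj i k) (gp i k m)) (z z' : ZC) (h : RC z z') :
    ∃ g ∈ Gam, act g (YY (VC z.1.1) z.2.1) = YY (VC z'.1.1) z'.2.1 := by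
  rcases RC_spec h with ⟨h1, h2⟩ | ⟨k, h1, h2, h3⟩
  · refine ⟨1, Gam.one_mem, ?_⟩
    rw [act_one, h1, h2]
  · obtain ⟨g, hg, hgm⟩ := hglue z.1.1 z.1.1.2 k k.2
    refine ⟨g, hg, ?_⟩
    have e1 : YY (VC z'.1.1) z'.2.1 =
        ∑ m, z'.2.1 (np z.1.1 k m) • VC z'.1.1 (np z.1.1 k m) := by
      unfold YY
      exact ((np_bij z.1.1 k).sum_comp fun m => z'.2.1 m • VC z'.1.1 m).symm
    have e2 : act g (YY (VC z.1.1) z.2.1) = ∑ m, z.2.1 m • act g (VC z.1.1 m) := by
      unfold YY act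
      rw [Matrix.mulVec_sum]
      exact Finset.sum_congr rfl fun m _ => by rw [Matrix.mulVec_smul]
    rw [e1, e2]
    refine Finset.sum_congr rfl fun m _ => ?_
    rw [h3 m]
    by_cases hmk : m = k
    · rw [hmk, h1, zero_smul, zero_smul]
    · congr 1
      rw [h2]
      have h4 := hgm m m.2 fun h => hmk (Fin.ext h)
      by_cases hm : m = 0
      · rw [hm, np_zero, VC_zero, VC_zero, ← e5_toR, Lib_MP_55d5ef_geo.act_toR]
        rw [hm] at h4
        have e5' : V10 z.1.1 ((0 : Fin 5) : ℕ) = e5 := V10_zero _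
        have e6 : V10 (gj z.1.1 k) (gp z.1.1 k ((0 : Fin 5) : ℕ)) = e5 := by
          have h7 : gp z.1.1 k ((0 : Fin 5) : ℕ) = 0 := (chF_spec z.1.1.2 k.2).2.2.2.1
          rw [h7]
          exact V10_zero _
        rw [e5', e6] at h4
        rw [h4]
      · have hm' : np z.1.1 k m ≠ 0 := fun h => hm (by
          rw [← np_zero z.1.1 k] at h
          exact np_inj _ _ h)
        unfold VC
        rw [if_neg hm, if_neg hm', act_smul, Lib_MP_55d5ef_geo.act_toR, h4]
        rfl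

/-- **The data of the topological theorem.** -/
theorem topC : TopData VC numC odC SC where
  fin := Set.toFinite _
  pent i _ := pentC i
  glue := glueC fun i hi k hk => Lib_MP_55d5ef_c.glue hi hk
  lev := levC
  inf := infC
  surj := surjC
  inj := injC

/-- The coordinates of the ideal vertex. -/
def einf : Fin 5 → ℝ := Pi.single 0 1

theorem einf_mem : einf ∈ Dl (Finset.univ : Finset (Fin 5)) := by
  refine ⟨fun m => ?_, fun m hm => absurd (Finset.mem_univ m) hm, ?_⟩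
  · by_cases hm : m = 0
    · rw [hm]
      simp [einf]
    · simp [einf, hm]
  · simp [einf]

/-- The realisation of the table. -/
abbrev XC : Type := X (labU : Fin 480 → Finset (Fin 5)) numC odC SC

/-- The ideal vertex. -/
def pinf : XC := pt labU numC odC 0 (Set.mem_univ 0) einf einf_mem

theorem Xo_pinf : Xo topC = {p : XC | p ≠ pinf} :=
  Xo_eq topC ⟨⟨0, Set.mem_univ 0⟩, ⟨einf, einf_mem⟩⟩ (by simp [einf])

/-- **The 480 pentachora without the ideal vertex are the hyperbolic manifold `H⁴/Γ`.** -/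
noncomputable def homC : {p : XC // p ≠ pinf} ≃ₜ Quotient orb :=
  (Homeomorph.setCongr Xo_pinf).symm.trans (Fhom topC)

theorem homC_pt (i : Fin 480) (x : Fin 5 → ℝ) (hx : x ∈ Dl (Finset.univ : Finset (Fin 5)))
    (h : pt labU numC odC i (Set.mem_univ i) x hx ≠ pinf) :
    homC ⟨pt labU numC odC i (Set.mem_univ i) x hx, h⟩ = Quotient.mk orb (hl (YY (VC i) x)) := rfl

end H4C
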