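import Pool.Agent.Lib_MP_55d5ef_q.QTop

/-!
# The quotient of the hyperboloid by the group `Gam`
-/

open Matrix Topology

namespace H4C

open Lib_MP_55d5ef_geo Lib_MP_55d5ef Lib_MP_55d5ef_q

theorem act_HL (g : Gam) {x : Fin 5 → ℝ} (hx : x ∈ HL) : act g.1 x ∈ HL :=
  act_mem_HL (Gam_isom g.1 g.2) (Gam_fwd g.1 g.2) hx

noncomputable instance : MulAction Gam HL where
  smul g x := ⟨act g.1 x.1, act_HL g x.2⟩
  one_smul x := Subtype.ext (act_one x.1)
  mul_smul g h x := Subtype.ext (act_mul g.1 h.1 x.1)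

theorem smul_val (g : Gam) (x : HL) : (g • x).1 = act g.1 x.1 := rfl

theorem act_continuous (g : GL (Fin 5) ℤ) : Continuous (act g) := by
  unfold act
  exact Continuous.matrix_mulVec continuous_const continuous_id

instance : ContinuousConstSMul Gam HL where
  continuous_const_smul g := by
    refine Continuous.subtype_mk ((act_continuous g.1).comp continuous_subtype_val) _

theorem bf_continuous : Continuous fun x : Fin 5 → ℝ => bf x x := by
  unfold bf
  fun_prop

theorem HL_closed : IsClosed HL := by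
  have h : HL = {x : Fin 5 → ℝ | bf x x = -1} ∩ {x | 0 ≤ x 4} := by
    ext x
    constructor
    · rintro ⟨h1, h2⟩
      exact ⟨h1, h2.le⟩
    · rintro ⟨h1, h2⟩
      refine ⟨h1, lt_of_le_of_ne h2 fun h3 => ?_⟩
      have h1' : bf x x = -1 := h1
      rw [bf_self, ← h3] at h1'
      have := qK_nonneg (x 1) (x 2) (x 3)
      linarith
  rw [h]
  exact (isClosed_eq bf_continuous continuous_const).inter
    (isClosed_le continuous_const (continuous_apply 4))

instance : LocallyCompactSpace HL := HL_closed.locallyCompactSpace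

instance : ProperlyDiscontinuousSMul Gam HL where
  finite_disjoint_inter_image := by
    intro K L hK hL
    have hC : IsCompact (Subtype.val '' (K ∪ L)) := (hK.union hL).image continuous_subtype_val
    have hsub : Subtype.val '' (K ∪ L) ⊆ HL := by
      rintro _ ⟨x, -, rfl⟩
      exact x.2
    have h1 := prop_disc hC hsub
    refine (h1.preimage (f := fun g : Gam => g.1) Subtype.val_injective.injOn).subset ?_
    rintro g ⟨_, ⟨x, hx, rfl⟩, hy⟩
    exact ⟨Gam_isom g.1 g.2, x.1, ⟨x, Or.inl hx, rfl⟩, ⟨g • x, Or.inr hy, rfl⟩⟩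

theorem orb_eq : MulAction.orbitRel Gam HL = orb := by
  ext x y
  rw [MulAction.orbitRel_apply, MulAction.mem_orbit_iff]
  constructor
  · rintro ⟨g, hg⟩
    refine ⟨(g⁻¹).1, (g⁻¹).2, ?_⟩
    rw [← smul_val, ← hg, inv_smul_smul]
  · rintro ⟨g, hg, h⟩
    refine ⟨(⟨g, hg⟩ : Gam)⁻¹, ?_⟩
    rw [inv_smul_eq_iff]
    exact Subtype.ext h.symm

/-- The manifold `H⁴/Γ`. -/
abbrev MQ : Type := Quotient orb

instance : T2Space MQ := by
  have key : ∀ s : Setoid HL, MulAction.orbitRel Gam HL = s → T2Space (Quotient s) := by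
    rintro _ rfl
    exact t2Space_of_properlyDiscontinuousSMul_of_t2Space
  exact key _ orb_eq

/-- The projection. -/
noncomputable def pr (x : HL) : MQ := Quotient.mk orb x

theorem pr_continuous : Continuous pr := continuous_quotient_mk'

theorem pr_open : IsOpenMap pr := by
  have key : ∀ s : Setoid HL, MulAction.orbitRel Gam HL = s → IsOpenMap (Quotient.mk s) := by
    rintro _ rfl
    exact isOpenMap_quotient_mk'_mul
  exact key _ orb_eq

theorem pr_surj : Function.Surjective pr := Quotient.mk_surjective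

theorem pr_eq_iff {x y : HL} : pr x = pr y ↔ ∃ g ∈ Gam, act g x.1 = y.1 := by
  unfold pr
  rw [Quotient.eq]
  rfl

/-- The height of the points of an orbit is bounded below. -/
theorem height_ge (g : Gam) (x : HL) : 1 / (2 * (x.1 0 + x.1 4)) ≤ (act g.1 x.1) 4 := by
  have h0 := HL_zero_pos x.2
  have h4 := x.2.2
  have hpos : 0 < x.1 0 + x.1 4 := by linarith
  set v : Fin 5 → ℤ := (g⁻¹).1.1 *ᵥ e5 with hv
  have hgi := Gam_isom (g⁻¹).1 (g⁻¹).2
  have h1 : (act g.1 x.1) 4 = - bf x.1 (toR v) := by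
    have h2 : (act g.1 x.1) 4 = - bf (act g.1 x.1) e5 := by rw [bf_e5]; ring
    have h3 : toR v = act (g⁻¹).1 e5 := by rw [← e5_toR, act_toR]
    rw [h2, h3, ← bf_act g.1 (Gam_isom g.1 g.2) x.1]
    congr 2
    have h5 : act g.1 (act (g⁻¹).1 e5) = e5 := by
      have : (g⁻¹).1 = g.1⁻¹ := rfl
      rw [this, act_act_inv]
    exact h5.symm
  have hv0 : bf v v = 0 := by
    rw [hv, hgi]
    simp [bf, e5]
  have hvne : v ≠ 0 := by
    intro h
    have h5 : g.1.1 *ᵥ v = e5 := by
      rw [hv, Matrix.mulVec_mulVec]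
      have : g.1.1 * (g⁻¹).1.1 = 1 := by
        have h6 : g.1 * (g⁻¹).1 = 1 := by
          have : (g⁻¹).1 = g.1⁻¹ := rfl
          rw [this, mul_inv_cancel]
        have h7 := congrArg (fun u : GL (Fin 5) ℤ => u.1) h6
        simp
      rw [this, Matrix.one_mulVec]
    rw [h, Matrix.mulVec_zero] at h5
    have h6 := congrFun h5 0
    simp [e5] at h6
  obtain ⟨i, hi⟩ : ∃ i, v i ≠ 0 := by
    by_contra h
    push Not at h
    exact hvne (funext h)
  have hb := coord_bound x.2 (toR v) i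
  rw [bf_toR, hv0] at hb
  have hi1 : (1 : ℝ) ≤ (toR v i) ^ 2 := by
    have h5 : 1 ≤ (v i) ^ 2 := by
      have : 0 < (v i) ^ 2 := by positivity
      omega
    have h6 : ((1 : ℤ) : ℝ) ≤ ((v i ^ 2 : ℤ) : ℝ) := by exact_mod_cast h5
    simpa [toR] using h6
  have hh := act_HL g x.2
  have hpos4 := hh.2
  rw [div_le_iff₀ (by positivity)]
  rw [h1] at hpos4 ⊢
  set t := bf x.1 (toR v)
  set R := x.1 0 + x.1 4
  have h7 : 1 ≤ (2 * R * (-t)) ^ 2 := by
    have : (2 * R * (-t)) ^ 2 = 2 * R ^ 2 * (((0 : ℤ) : ℝ) + 2 * t ^ 2) := by push_cast; ring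
    rw [this]
    exact hi1.trans hb
  have h8 : 0 < 2 * R * (-t) := by positivity
  nlinarith

end H4C
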