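import Pool.Agent.Lib_MP_55d5ef_c.CTop
import Pool.Agent.Lib_MP_55d5ef_c.Tab
import Pool.Agent.Lib_MP_55d5ef_t.TFlo

/-!
# The points of the pentachora in the parameters of the Ford domain
-/

open Matrix Topology

namespace H4C

open Lib_MP_55d5ef_geo Lib_MP_55d5ef Lib_MP_55d5ef_q MP55T Fl49

/-- The parameter of the height: from the straight parameter to the one of `jm`. -/
noncomputable def sp (z : P3) (s : ℝ) : NNReal :=
  Real.toNNReal (Real.sqrt (1 + s / (1 - mz z)) - 1)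

theorem one_sub_mz (z : P3) : 0 < 1 - mz z := by
  have := mz_le_cov z
  linarith

theorem sp_coe (z : P3) {s : ℝ} (hs : 0 ≤ s) :
    ((sp z s : NNReal) : ℝ) = Real.sqrt (1 + s / (1 - mz z)) - 1 := by
  unfold sp
  rw [Real.coe_toNNReal]
  have h1 := one_sub_mz z
  have h2 : 1 ≤ Real.sqrt (1 + s / (1 - mz z)) := by
    rw [Real.one_le_sqrt]
    have : 0 ≤ s / (1 - mz z) := by positivity
    linarith
  linarith

theorem sp_zero (z : P3) : sp z 0 = 0 := by
  unfold sp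
  simp

theorem sp_add (z : P3) (k : Fin 3 → ℤ) (s : ℝ) : sp (z + kz k) s = sp z s := by
  unfold sp
  rw [mz_add]

/-- Every parameter arises. -/
theorem sp_surj (z : P3) (s' : NNReal) : ∃ s : ℝ, 0 ≤ s ∧ sp z s = s' ∧ (s' = 0 → s = 0) := by
  have h1 := one_sub_mz z
  have h2 : (0 : ℝ) ≤ s' := s'.2
  refine ⟨(1 - mz z) * ((1 + (s' : ℝ)) ^ 2 - 1), ?_, ?_, ?_⟩
  · have : 0 ≤ (1 + (s' : ℝ)) ^ 2 - 1 := by nlinarith
    positivity
  · unfold sp
    have h3 : 1 + (1 - mz z) * ((1 + (s' : ℝ)) ^ 2 - 1) / (1 - mz z) = (1 + (s' : ℝ)) ^ 2 := by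
      field_simp
      ring
    rw [h3, Real.sqrt_sq (by linarith)]
    rw [add_sub_cancel_left, Real.toNNReal_coe]
  · rintro rfl
    simp

/-- The inverse of `sp`. -/
noncomputable def isp (z : P3) (s' : NNReal) : ℝ := (1 - mz z) * ((1 + (s' : ℝ)) ^ 2 - 1)

theorem isp_nonneg (z : P3) (s' : NNReal) : 0 ≤ isp z s' := by
  have h1 := one_sub_mz z
  have h2 : (0 : ℝ) ≤ s' := s'.2
  have : 0 ≤ (1 + (s' : ℝ)) ^ 2 - 1 := by nlinarith
  unfold isp
  positivity

theorem sp_isp (z : P3) (s' : NNReal) : sp z (isp z s') = s' := by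
  have h1 := one_sub_mz z
  have h2 : (0 : ℝ) ≤ s' := s'.2
  unfold sp isp
  have h3 : 1 + (1 - mz z) * ((1 + (s' : ℝ)) ^ 2 - 1) / (1 - mz z) = (1 + (s' : ℝ)) ^ 2 := by
    field_simp
    ring
  rw [h3, Real.sqrt_sq (by linarith)]
  rw [add_sub_cancel_left, Real.toNNReal_coe]

theorem isp_sp (z : P3) {s : ℝ} (hs : 0 ≤ s) : isp z (sp z s) = s := by
  have h1 := one_sub_mz z
  unfold isp
  rw [sp_coe z hs]
  have h2 : 0 ≤ 1 + s / (1 - mz z) := by positivity
  have h3 : (1 + (Real.sqrt (1 + s / (1 - mz z)) - 1)) ^ 2 = 1 + s / (1 - mz z) := by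
    rw [add_sub_cancel, Real.sq_sqrt h2]
  rw [h3]
  field_simp
  ring

theorem isp_zero (z : P3) : isp z 0 = 0 := by
  unfold isp
  simp

theorem isp_add (z : P3) (k : Fin 3 → ℤ) (s : NNReal) : isp (z + kz k) s = isp z s := by
  unfold isp
  rw [mz_add]

/-- The point over `w` at the height `s` in the straight model of the cell of `0`. -/
def bv (w : P3) (s : ℝ) : Fin 5 → ℝ := ![1 + s, w 0, w 1, w 2, 1]

theorem bf_bv (w : P3) (s : ℝ) : bf (bv w s) (bv w s) = 2 * qz w - 2 * (1 + s) := by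
  rw [bf_self]
  simp [bv, qz]

theorem bv_Up {w : P3} {s : ℝ} (hs : 0 ≤ s) (hw : qz w = mz w) : bv w s ∈ Up := by
  refine ⟨?_, by simp [bv]⟩
  rw [bf_bv, hw]
  have := mz_le_cov w
  linarith

theorem nrm_bv {w : P3} {s : ℝ} (hs : 0 ≤ s) (hw : qz w = mz w) : nrm (bv w s) = jm (w, sp w s) := by
  have h1 := one_sub_mz w
  have hN : -bf (bv w s) (bv w s) = 2 * (1 - mz w + s) := by
    rw [bf_bv, hw]
    ring
  have hNpos : 0 < 2 * (1 - mz w + s) := by linarith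
  have hb : lastc (w, sp w s) = (Real.sqrt (-bf (bv w s) (bv w s)))⁻¹ := by
    unfold lastc
    rw [one_div]
    congr 1
    show rho w * (1 + ((sp w s : NNReal) : ℝ)) = _
    rw [sp_coe w hs, add_sub_cancel, hN]
    unfold rho
    rw [← Real.sqrt_mul (by linarith)]
    congr 1
    field_simp
  have hN' := Real.sqrt_pos.2 hNpos
  have hsq := Real.sq_sqrt hNpos.le
  unfold jm nrm
  rw [hb, hN]
  set N := Real.sqrt (2 * (1 - mz w + s)) with hNdef
  funext i
  fin_cases i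
  · show N⁻¹ * (1 + s) = 1 / (2 * N⁻¹) + N⁻¹ * qz w
    rw [hw]
    field_simp
    nlinarith
  · rfl
  · rfl
  · rfl
  · show N⁻¹ * 1 = N⁻¹
    ring

/-- The isometry property of translations. -/
theorem nrm_TG (a b c : ℤ) (y : Fin 5 → ℝ) : nrm (act (TG a b c) y) = act (TG a b c) (nrm y) := by
  unfold nrm
  rw [act_smul, bf_act _ (iso_TG a b c)]

theorem act_add (g : GL (Fin 5) ℤ) (x y : Fin 5 → ℝ) : act g (x + y) = act g x + act g y := by
  unfold act
  rw [Matrix.mulVec_add]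

theorem act_TG_e5 (a b c : ℤ) : act (TG a b c) (e5 : Fin 5 → ℝ) = e5 := by
  rw [act_TG]
  funext i
  fin_cases i <;> simp [e5]

/-- The lifted vertices of the tiles. -/
noncomputable def LV (t : Tl) (m : ℕ) : Fin 5 → ℝ :=
  act (TG (t.1 0) (t.1 1) (t.1 2)) (bv (rv (Wt (axk t.1) t.2 m)) 0)

/-- The point of a pentachoron over a tile. -/
noncomputable def QQ (t : Tl) (β : ℕ → ℝ) (s : ℝ) : Fin 5 → ℝ :=
  β 0 • LV t 0 + β 1 • LV t 1 + β 2 • LV t 2 + β 3 • LV t 3 + s • e5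

theorem QQ_eq (t : Tl) (β : ℕ → ℝ) (s : ℝ) (h : β 0 + β 1 + β 2 + β 3 = 1) :
    QQ t β s = act (TG (t.1 0) (t.1 1) (t.1 2)) (bv (posT t β - kz t.1) s) := by
  have e : bv (posT t β - kz t.1) s = β 0 • bv (rv (Wt (axk t.1) t.2 0)) 0 +
      β 1 • bv (rv (Wt (axk t.1) t.2 1)) 0 + β 2 • bv (rv (Wt (axk t.1) t.2 2)) 0 +
      β 3 • bv (rv (Wt (axk t.1) t.2 3)) 0 + s • e5 := by
    rw [posT_sub t β h]
    funext i
    fin_cases i
    · simp [bv, e5]
      linarith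
    · simp [bv, e5]
    · simp [bv, e5]
    · simp [bv, e5]
    · simp [bv, e5]
      linarith
  unfold QQ LV
  rw [e, act_add, act_add, act_add, act_add, act_smul, act_smul, act_smul, act_smul, act_smul,
    act_TG_e5]

theorem act_TG_Up (a b c : ℤ) {y : Fin 5 → ℝ} (hy : y ∈ Up) : act (TG a b c) y ∈ Up := by
  refine ⟨?_, ?_⟩
  · rw [bf_act _ (iso_TG a b c)]
    exact hy.1
  · rw [act_TG]
    simpa using hy.2

/-- **The point of a pentachoron in the parameters of the Ford domain.** -/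
theorem hl_QQ {t : Tl} {β : ℕ → ℝ} {s : ℝ} (h : β 0 + β 1 + β 2 + β 3 = 1)
    (hV : posT t β ∈ Vor t.1) (hs : 0 ≤ s) :
    QQ t β s ∈ Up ∧ (hl (QQ t β s)).1 = jm (posT t β, sp (posT t β) s) := by
  set w : P3 := posT t β - kz t.1 with hw
  have hz : posT t β = w + kz t.1 := by rw [hw, sub_add_cancel]
  have hq : qz w = mz w := by
    have h1 := (mem_Vor_iff _ _).1 hV
    rw [← hw, hz, mz_add] at h1
    exact h1
  have hU : QQ t β s ∈ Up := by
    rw [QQ_eq t β s h]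
    exact act_TG_Up _ _ _ (bv_Up hs hq)
  refine ⟨hU, ?_⟩
  rw [hl_val hU, QQ_eq t β s h, nrm_TG, nrm_bv hs hq, act_jm_trans, hz]
  simp only [sp_add]

end H4C
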