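import Pool.Agent.Lib_MP_55d5ef_c.CTop
import Pool.Agent.Lib_MP_55d5ef_c.CChk

/-!
# The gluing relation of the 480 pentachora
-/

open Matrix Topology

namespace H4C

open Lib_MP_55d5ef_geo Lib_MP_55d5ef Lib_MP_55d5ef_q MP55T Fl49 Lib_MP_55d5ef_c

theorem chF_spec {i k : ℕ} (hi : i < 480) (hk : k < 5) : gj i k < 480 ∧ gp i k k < 5 ∧
    gj (gj i k) (gp i k k) = i ∧ gp i k 0 = 0 ∧ ∀ m < 5, gp i k m < 5 ∧
      gp (gj i k) (gp i k k) (gp i k m) = m := by
  have h := allLt_iff.1 (allLt_iff.1 chF_all i hi) k hk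
  simp only [chF, Bool.and_eq_true, decide_eq_true_eq] at h
  obtain ⟨h1, h2, h3, h4, h5⟩ := h
  refine ⟨h1, h2, h3, h4, fun m hm => ?_⟩
  have h6 := allLt_iff.1 h5 m hm
  simpa only [Bool.and_eq_true, decide_eq_true_eq] using h6

/-- The neighbour. -/
def nj (i : Fin 480) (k : Fin 5) : Fin 480 := ⟨gj i k, (chF_spec i.2 k.2).1⟩

/-- The vertex correspondence. -/
def np (i : Fin 480) (k m : Fin 5) : Fin 5 := ⟨gp i k m, ((chF_spec i.2 k.2).2.2.2.2 m m.2).1⟩

theorem nj_nj (i : Fin 480) (k : Fin 5) : nj (nj i k) (np i k k) = i :=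
  Fin.ext (chF_spec i.2 k.2).2.2.1

theorem np_np (i : Fin 480) (k m : Fin 5) : np (nj i k) (np i k k) (np i k m) = m :=
  Fin.ext ((chF_spec i.2 k.2).2.2.2.2 m m.2).2

theorem np_zero (i : Fin 480) (k : Fin 5) : np i k 0 = 0 :=
  Fin.ext (chF_spec i.2 k.2).2.2.2.1

theorem np_inj (i : Fin 480) (k : Fin 5) : Function.Injective (np i k) := by
  intro m m' h
  rw [← np_np i k m, h, np_np]

theorem np_bij (i : Fin 480) (k : Fin 5) : Function.Bijective (np i k) :=
  Finite.injective_iff_bijective.1 (np_inj i k)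

theorem np_ne (i : Fin 480) (k : Fin 5) : ¬ (i = nj i k ∧ k = np i k k) := by
  rintro ⟨h1, h2⟩
  have h := allLt_iff.1 (allLt_iff.1 chN_all i i.2) k k.2
  have h3 : gj i k = i := (congrArg Fin.val h1).symm
  have h4 : gp i k k = k := (congrArg Fin.val h2).symm
  rw [decide_eq_true h3, decide_eq_true h4] at h
  exact absurd h (by decide)

/-- The vertices different from `k`, in increasing order. -/
def lk (k : Fin 5) : List (Fin 5) := (List.finRange 5).filter fun m => m ≠ k

theorem mem_lk {k m : Fin 5} : m ∈ lk k ↔ m ≠ k := by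
  unfold lk
  simp

/-- The code of a facet. -/
def cod (i : Fin 480) (k : Fin 5) : ℕ := 5 * i.1 + k.1

theorem cod_inj {i j : Fin 480} {k w : Fin 5} (h : cod i k = cod j w) : i = j ∧ k = w := by
  unfold cod at h
  have h1 := k.2
  have h2 := w.2
  exact ⟨Fin.ext (by omega), Fin.ext (by omega)⟩

/-- The numbers of the facets. -/
def numC (i : Fin 480) (k : Fin 5) : ℕ := min (cod i k) (cod (nj i k) (np i k k))

/-- The orderings of the facets. -/
def odC (i : Fin 480) (k : Fin 5) : List (Fin 5) :=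
  if cod i k ≤ cod (nj i k) (np i k k) then lk k
  else (lk (np i k k)).map (np (nj i k) (np i k k))

theorem numC_partner (i : Fin 480) (k : Fin 5) : numC (nj i k) (np i k k) = numC i k := by
  unfold numC
  rw [nj_nj, np_np, min_comm]

theorem numC_eq {i j : Fin 480} {k w : Fin 5} (h : numC i k = numC j w) :
    (i = j ∧ k = w) ∨ (j = nj i k ∧ w = np i k k) := by
  have key : cod i k = cod j w ∨ cod i k = cod (nj j w) (np j w w) ∨
      cod (nj i k) (np i k k) = cod j w ∨
      cod (nj i k) (np i k k) = cod (nj j w) (np j w w) := by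
    unfold numC at h
    omega
  rcases key with h1 | h1 | h1 | h1
  · exact Or.inl (cod_inj h1)
  · obtain ⟨e1, e2⟩ := cod_inj h1
    right
    subst e1
    rw [e2]
    exact ⟨(nj_nj j w).symm, (np_np j w w).symm⟩
  · obtain ⟨e1, e2⟩ := cod_inj h1
    exact Or.inr ⟨e1.symm, e2.symm⟩
  · obtain ⟨e1, e2⟩ := cod_inj h1
    left
    have e3 := nj_nj i k
    have e4 := np_np i k k
    rw [e1, e2, nj_nj] at e3
    rw [e1, e2, np_np] at e4
    exact ⟨e3.symm, e4.symm⟩

theorem map_lk {k : Fin 5} {x y : Fin 5 → ℝ} (h : (lk k).map x = (lk k).map y) :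
    ∀ m, m ≠ k → x m = y m := by
  intro m hm
  exact List.map_inj_left.1 h m (mem_lk.2 hm)

theorem odC_mem (i : Fin 480) (k m : Fin 5) (hm : m ≠ k) : m ∈ odC i k := by
  unfold odC
  split_ifs
  · exact mem_lk.2 hm
  · rw [List.mem_map]
    refine ⟨np i k m, mem_lk.2 ?_, np_np i k m⟩
    intro h
    exact hm (np_inj i k h)

/-- The orderings of the two sides of a gluing. -/
theorem od_iff (i : Fin 480) (k : Fin 5) (x y : Fin 5 → ℝ)
    (hne : ¬ (i = nj i k ∧ k = np i k k)) :
    (odC i k).map x = (odC (nj i k) (np i k k)).map y ↔ ∀ m, m ≠ k → x m = y (np i k m) := by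
  have hc : cod i k ≠ cod (nj i k) (np i k k) := fun h => hne (cod_inj h)
  rcases lt_or_gt_of_ne hc with h | h
  · have e1 : odC i k = lk k := by
      unfold odC
      rw [if_pos h.le]
    have e2 : odC (nj i k) (np i k k) = (lk k).map (np i k) := by
      unfold odC
      rw [nj_nj, np_np, if_neg (by omega)]
    rw [e1, e2, List.map_map]
    constructor
    · intro h1 m hm
      exact List.map_inj_left.1 h1 m (mem_lk.2 hm)
    · intro h1
      exact List.map_congr_left fun m hm => h1 m (mem_lk.1 hm)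
  · have e1 : odC i k = (lk (np i k k)).map (np (nj i k) (np i k k)) := by
      unfold odC
      rw [if_neg (by omega)]
    have e2 : odC (nj i k) (np i k k) = lk (np i k k) := by
      unfold odC
      rw [nj_nj, np_np, if_pos h.le]
    rw [e1, e2, List.map_map]
    constructor
    · intro h1 m hm
      have h2 := List.map_inj_left.1 h1 (np i k m) (mem_lk.2 fun h3 => hm (np_inj i k h3))
      rw [Function.comp_apply, np_np] at h2
      exact h2
    · intro h1
      refine List.map_congr_left fun m hm => ?_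
      obtain ⟨m', rfl⟩ := (np_bij i k).2 m
      rw [Function.comp_apply, np_np]
      exact h1 m' fun h3 => (mem_lk.1 hm) (by rw [h3])

/-- The records. -/
abbrev SC : Set (Fin 480) := Set.univ

/-- The points of the pentachora. -/
abbrev ZC : Type := Z (labU : Fin 480 → Finset (Fin 5)) SC

/-- The gluing relation. -/
abbrev RC : ZC → ZC → Prop := Rg labU numC odC SC

/-- What the gluing relation says. -/
theorem RC_spec {z z' : ZC} (h : RC z z') : (z.1 = z'.1 ∧ z.2.1 = z'.2.1) ∨
    ∃ k : Fin 5, z.2.1 k = 0 ∧ z'.1.1 = nj z.1.1 k ∧ ∀ m, z'.2.1 (np z.1.1 k m) = z.2.1 m := by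
  obtain ⟨k, -, w, -, h1, h2, h3, h4⟩ := h
  have same : z.1.1 = z'.1.1 ∧ k = w → (z.1 = z'.1 ∧ z.2.1 = z'.2.1) := by
    rintro ⟨e1, e2⟩
    refine ⟨Subtype.ext e1, ?_⟩
    subst e2
    rw [e1] at h4
    funext m
    by_cases hm : m = k
    · rw [hm]
      exact h2.trans h3.symm
    · exact List.map_inj_left.1 h4 m (odC_mem _ k m hm)
  rcases numC_eq h1 with he | ⟨e1, e2⟩
  · exact Or.inl (same he)
  · by_cases hne : z.1.1 = nj z.1.1 k ∧ k = np z.1.1 k k
    · exact Or.inl (same ⟨hne.1.trans e1.symm, hne.2.trans e2.symm⟩)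
    · right
      refine ⟨k, h2, e1, fun m => ?_⟩
      rw [e1, e2] at h4
      by_cases hm : m = k
      · rw [hm, ← e2, h2]
        exact h3
      · exact ((od_iff _ _ _ _ hne).1 h4 m hm).symm

/-- The gluing over the facet `k`. -/
theorem RC_glue {z z' : ZC} (k : Fin 5) (h0 : z.2.1 k = 0) (h1 : z'.1.1 = nj z.1.1 k)
    (h2 : ∀ m, z'.2.1 (np z.1.1 k m) = z.2.1 m) :
    (Quot.mk RC z : X labU numC odC SC) = Quot.mk RC z' := by
  apply Quot.sound
  refine ⟨k, Finset.mem_univ _, np z.1.1 k k, Finset.mem_univ _, ?_, h0, ?_, ?_⟩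
  · rw [h1, numC_partner]
  · show z'.2.1 (np z.1.1 k k) = 0
    rw [h2 k]
    exact h0
  · show (odC z.1.1 k).map z.2.1 = (odC z'.1.1 (np z.1.1 k k)).map z'.2.1
    rw [h1]
    by_cases hne : z.1.1 = nj z.1.1 k ∧ k = np z.1.1 k k
    · exact absurd hne (np_ne _ _)
    · exact (od_iff _ _ _ _ hne).2 fun m _ => (h2 m).symm

end H4C
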