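import Pool.Agent.Lib_MP_55d5ef_c.CPar
import Pool.Agent.Lib_MP_55d5ef_c.CRg

/-!
# The map from the parameters to the gluing
-/

open Matrix Topology

namespace H4C

open Lib_MP_55d5ef_geo Lib_MP_55d5ef Lib_MP_55d5ef_q MP55T Fl49 Lib_MP_55d5ef_c

/-- The coordinates in a pentachoron. -/
noncomputable def xv (b : ℕ → ℝ) (s : ℝ) : Fin 5 → ℝ :=
  ![s / (1 + s), b 0 / (1 + s), b 1 / (1 + s), b 2 / (1 + s), b 3 / (1 + s)]

theorem xv_succ (b : ℕ → ℝ) (s : ℝ) (m : Fin 5) (v : ℕ) (hv : v < 4) (hm : m.1 = v + 1) :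
    xv b s m = b v / (1 + s) := by
  have : m = ⟨v + 1, by omega⟩ := Fin.ext hm
  rw [this]
  interval_cases v <;> rfl

theorem xv_zero (b : ℕ → ℝ) (s : ℝ) : xv b s 0 = s / (1 + s) := rfl

theorem xv_mem {b : ℕ → ℝ} {s : ℝ} (hs : 0 ≤ s) (hb : ∀ v < 4, 0 ≤ b v)
    (h : b 0 + b 1 + b 2 + b 3 = 1) : xv b s ∈ Dl (Finset.univ : Finset (Fin 5)) := by
  have h1 : 0 < 1 + s := by linarith
  refine ⟨fun m => ?_, fun m hm => absurd (Finset.mem_univ m) hm, ?_⟩
  · have b0 := hb 0 (by norm_num)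
    have b1 := hb 1 (by norm_num)
    have b2 := hb 2 (by norm_num)
    have b3 := hb 3 (by norm_num)
    fin_cases m
    · show 0 ≤ s / (1 + s)
      positivity
    · show 0 ≤ b 0 / (1 + s)
      positivity
    · show 0 ≤ b 1 / (1 + s)
      positivity
    · show 0 ≤ b 2 / (1 + s)
      positivity
    · show 0 ≤ b 3 / (1 + s)
      positivity
  · rw [Fin.sum_univ_five]
    show s / (1 + s) + b 0 / (1 + s) + b 1 / (1 + s) + b 2 / (1 + s) + b 3 / (1 + s) = 1
    field_simp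
    linarith

/-- The record of a tile. -/
def recT (t : Tl) (ht : t.2 < 12) : Fin 480 :=
  ⟨12 * cls t.1 + t.2, by have := MP55T.cls_lt t.1; omega⟩

/-- The point of the pentachoron of a tile. -/
noncomputable def kap (t : Tl) (z : P3) (s : NNReal) (h : inT z t) : ZC :=
  ⟨⟨recT t h.1, Set.mem_univ _⟩, ⟨xv (fun m => bb t m z) (isp z s),
    xv_mem (isp_nonneg z s) h.2 (bb_sum t h.1 z)⟩⟩

theorem kap_rec (t : Tl) (z : P3) (s : NNReal) (h : inT z t) : (kap t z s h).1.1 = recT t h.1 := rfl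

theorem kap_x (t : Tl) (z : P3) (s : NNReal) (h : inT z t) :
    (kap t z s h).2.1 = xv (fun m => bb t m z) (isp z s) := rfl

/-- The class of a cell is the class of its representative. -/
theorem cls_nb (k : Fin 3 → ℤ) (d : Fin 3 → ℤ) : cls (k + d) = cls (rpc (cls k) + d) := by
  obtain ⟨-, h⟩ := cls_spec k
  have e : k + d = (rpc (cls k) + d) + (k - rpc (cls k)) := by
    funext i
    simp only [Pi.add_apply, Pi.sub_apply]
    ring
  rw [e, cls_add]
  obtain ⟨h1, h2⟩ := h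
  refine ⟨?_, ?_⟩
  · exact h1
  · show 20 ∣ (k 2 - repz (cls k)) - 6 * (k 0 - repx (cls k)) - 11 * (k 1 - 0)
    rw [sub_zero]
    exact h2

theorem star_spec (t : Tl) (ht : t.2 < 12) {m : ℕ} (hm : m < 4) :
    gj (12 * cls t.1 + t.2) (m + 1) = 12 * cls (nbr t m).1 + (nbr t m).2 ∧
    ∀ v < 4, gp (12 * cls t.1 + t.2) (m + 1) (v + 1) = pmr t m v + 1 := by
  have hc := MP55T.cls_lt t.1
  have h := allLt_iff.1 (allLt_iff.1 (allLt_iff.1 chS_all _ hc) _ ht) m hm
  simp only [chS, Bool.and_eq_true, decide_eq_true_eq] at h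
  obtain ⟨h1, h2⟩ := h
  refine ⟨?_, fun v hv => ?_⟩
  · rw [h1]
    show _ = 12 * cls (t.1 + dv (nbt (axk t.1) t.2 m).1) + _
    rw [cls_nb t.1]
    rfl
  · have h3 := allLt_iff.1 h2 v hv
    simp only [decide_eq_true_eq] at h3
    rw [h3]
    rfl

/-- Adjacent tiles. -/
theorem kap_adj {z : P3} {t t' : Tl} (s : NNReal) (h : adj z t t') (ht : inT z t) (ht' : inT z t') :
    (Quot.mk RC (kap t z s ht) : X labU numC odC SC) = Quot.mk RC (kap t' z s ht') := by
  obtain ⟨-, m, hm, h0, rfl⟩ := h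
  obtain ⟨h1, h2⟩ := star_spec t ht.1 hm
  have hk : m + 1 < 5 := by omega
  refine RC_glue ⟨m + 1, hk⟩ ?_ ?_ ?_
  · rw [kap_x, xv_succ _ _ _ m hm rfl]
    rw [h0, zero_div]
  · exact Fin.ext h1.symm
  · intro w
    rw [kap_x, kap_x]
    by_cases hw : w = 0
    · subst hw
      rw [np_zero, xv_zero, xv_zero]
    · obtain ⟨v, hv⟩ : ∃ v, w.1 = v + 1 := ⟨w.1 - 1, by
        have : w.1 ≠ 0 := fun h => hw (Fin.ext h)
        omega⟩
      have hv4 : v < 4 := by
        have := w.2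
        omega
      rw [xv_succ _ _ w v hv4 hv, xv_succ _ _ _ (pmr t m v) (pmr_lt t ht.1 hm hv4), 
        bb_nbr z t ht.1 hm h0 hv4]
      show gp (12 * cls t.1 + t.2) (m + 1) w.1 = _
      rw [hv]
      exact h2 v hv4

/-- Change of the tile. -/
theorem kap_conn {z : P3} {t t' : Tl} (s : NNReal) (ht : inT z t) (ht' : inT z t') :
    (Quot.mk RC (kap t z s ht) : X labU numC odC SC) = Quot.mk RC (kap t' z s ht') := by
  have h := conn ht ht'
  induction h with
  | refl => rfl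
  | tail hab hbc ih =>
    have hb := hbc.1
    exact (ih hb).trans (kap_adj s hbc hb ht')

/-- The map from the parameters to the gluing. -/
noncomputable def Phi (y : P3 × NNReal) : X (labU : Fin 480 → Finset (Fin 5)) numC odC SC :=
  Quot.mk RC (kap (cover y.1).choose y.1 y.2 (cover y.1).choose_spec)

theorem Phi_eq {z : P3} {t : Tl} (s : NNReal) (ht : inT z t) :
    Phi (z, s) = Quot.mk RC (kap t z s ht) := kap_conn s _ ht

theorem kap_ext {z z' : ZC} (h1 : z.1.1 = z'.1.1) (h2 : z.2.1 = z'.2.1) : z = z' := by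
  obtain ⟨⟨i, hi⟩, ⟨x, hx⟩⟩ := z
  obtain ⟨⟨j, hj⟩, ⟨y, hy⟩⟩ := z'
  simp only at h1 h2
  subst h1
  subst h2
  rfl

theorem Phi_trans (z : P3) (s : NNReal) (k : Fin 3 → ℤ) (hk : InLam (k 0) (k 1) (k 2)) :
    Phi (z + kz k, s) = Phi (z, s) := by
  obtain ⟨⟨k₀, l⟩, ht⟩ := cover z
  have ht' := inT_add hk ht
  rw [Phi_eq s ht', Phi_eq s ht]
  congr 1
  refine kap_ext (Fin.ext ?_) ?_
  · show 12 * cls (k₀ + k) + l = 12 * cls k₀ + l
    rw [cls_add hk]
  · rw [kap_x, kap_x, isp_add]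
    congr 1
    funext m
    exact bb_add k₀ k hk l m z

theorem Phi_pair (z : P3) (k : Fin 3 → ℤ) (hz : z ∈ Vor k) : Phi (phiK k z, 0) = Phi (z, 0) := by
  obtain ⟨l, ht⟩ := cover_cell hz
  have ht' := inT_floor ht
  rw [Phi_eq 0 ht', Phi_eq 0 ht]
  symm
  have hc := MP55T.cls_lt k
  have h := allLt_iff.1 (allLt_iff.1 chL_all _ hc) l ht.1
  simp only [chL, Bool.and_eq_true, decide_eq_true_eq] at h
  obtain ⟨h1, h2⟩ := h
  refine RC_glue 0 ?_ ?_ ?_
  · rw [kap_x, xv_zero, isp_zero, zero_div]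
  · apply Fin.ext
    show 12 * cls (tgt k) + (fle (cls k) l).1 = gj (12 * cls k + l) 0
    rw [h1]
    congr 2
    unfold tgt
    rw [prt_eq, chk_cls _ (chk_prc _ hc)]
  · intro w
    rw [kap_x, kap_x, isp_zero, isp_zero]
    by_cases hw : w = 0
    · subst hw
      rw [np_zero, xv_zero, xv_zero]
    · obtain ⟨v, hv⟩ : ∃ v, w.1 = v + 1 := ⟨w.1 - 1, by
        have : w.1 ≠ 0 := fun h => hw (Fin.ext h)
        omega⟩
      have hv4 : v < 4 := by
        have := w.2
        omega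
      have hflp : flp (k, l) v < 4 := (fl_dec ht.1).2.1 v hv4
      rw [xv_succ _ _ w v hv4 hv, xv_succ _ _ _ (flp (k, l) v) hflp]
      · show bb (flt (k, l)) (flp (k, l) v) (phiK k z) / (1 + 0) = bb (k, l) v z / (1 + 0)
        rw [bb_floor (t := (k, l)) ht.1 z hv4]
      · show gp (12 * cls k + l) 0 w.1 = _
        rw [hv]
        exact of_decide_eq_true (allLt_iff.1 h2 v hv4)

theorem Phi_step {y y' : P3 × NNReal} (h : step y y') : Phi y = Phi y' := by
  cases h with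
  | trans z s k hk => exact (Phi_trans z s k hk).symm
  | pair z k hz => exact (Phi_pair z k hz).symm

theorem Phi_eqv {y y' : P3 × NNReal} (h : Relation.EqvGen step y y') : Phi y = Phi y' := by
  induction h with
  | rel y y' h => exact Phi_step h
  | refl y => rfl
  | symm y y' _ ih => exact ih.symm
  | trans y y' y'' _ _ ih1 ih2 => exact ih1.trans ih2

end H4C
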