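import Pool.Agent.Lib_MP_55d5ef_c.CM
import Pool.Agent.Lib_MP_55d5ef_fl.Sph

/-!
# A gluing of pentachora with one ideal vertex is the hyperbolic manifold

`TopData`: records `ρ` with vertices `Vx i m` in the Minkowski space, `m = 0` being the cusp `e5`.
-/

open Matrix Topology

namespace H4C

open Lib_MP_55d5ef_geo Lib_MP_55d5ef Fl49

/-- The time-like future vectors. -/
def Up : Set (Fin 5 → ℝ) := {y | bf y y < 0 ∧ 0 < y 4}

theorem Up_open : IsOpen Up :=
  (isOpen_lt bf_continuous continuous_const).inter (isOpen_lt continuous_const (continuous_apply 4))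

/-- Normalisation. -/
noncomputable def nrm (y : Fin 5 → ℝ) : Fin 5 → ℝ := (Real.sqrt (-bf y y))⁻¹ • y

theorem nrm_HL {y : Fin 5 → ℝ} (hy : y ∈ Up) : nrm y ∈ HL := by
  obtain ⟨h1, h2⟩ := hy
  have h3 : 0 < -bf y y := by linarith
  have h4 := Real.sqrt_pos.2 h3
  refine ⟨?_, ?_⟩
  · unfold nrm
    rw [bf_smul_left, bf_smul_right]
    have h5 := Real.sq_sqrt h3.le
    field_simp
    nlinarith
  · show 0 < (Real.sqrt (-bf y y))⁻¹ * y 4
    positivity

theorem base_HL : (![(1 : ℝ) / 2, 0, 0, 0, 1] : Fin 5 → ℝ) ∈ HL := by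
  refine ⟨?_, ?_⟩
  · simp [bf]
    norm_num
  · simp

open Classical in
/-- The point of the hyperboloid on the ray of a vector. -/
noncomputable def hl (y : Fin 5 → ℝ) : HL :=
  if h : y ∈ Up then ⟨nrm y, nrm_HL h⟩ else ⟨_, base_HL⟩

theorem hl_val {y : Fin 5 → ℝ} (h : y ∈ Up) : (hl y).1 = nrm y := by
  unfold hl
  rw [dif_pos h]

theorem nrm_self {y : Fin 5 → ℝ} (h : y ∈ HL) : nrm y = y := by
  unfold nrm
  rw [h.1]
  simp

theorem hl_self (y : HL) : hl y.1 = y := by
  have h : y.1 ∈ Up := by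
    refine ⟨?_, y.2.2⟩
    rw [y.2.1]
    norm_num
  apply Subtype.ext
  rw [hl_val h, nrm_self y.2]

theorem nrm_continuousOn : ContinuousOn nrm Up := by
  have h1 : Continuous fun y : Fin 5 → ℝ => Real.sqrt (-bf y y) :=
    Real.continuous_sqrt.comp bf_continuous.neg
  have h2 : ContinuousOn (fun y : Fin 5 → ℝ => (Real.sqrt (-bf y y))⁻¹) Up := by
    refine ContinuousOn.inv₀ h1.continuousOn ?_
    intro y hy
    have : 0 < -bf y y := by
      have := hy.1
      linarith
    exact (Real.sqrt_pos.2 this).ne'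
  have h3 : ContinuousOn (fun y : Fin 5 → ℝ => y) Up := continuousOn_id
  exact h2.smul h3

theorem hl_continuousOn : ContinuousOn hl Up := by
  rw [continuousOn_iff_continuous_domRestrict]
  have h1 : Continuous fun y : Up => nrm y.1 :=
    continuousOn_iff_continuous_domRestrict.1 nrm_continuousOn
  have h2 : Continuous fun y : Up => (hl y.1).1 := h1.congr fun y => (hl_val y.2).symm
  have h3 : Continuous fun y : Up => (⟨(hl y.1).1, (hl y.1).2⟩ : HL) := h2.subtype_mk _
  exact h3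

theorem act_smul (g : GL (Fin 5) ℤ) (c : ℝ) (y : Fin 5 → ℝ) : act g (c • y) = c • act g y := by
  unfold act
  rw [Matrix.mulVec_smul]

theorem act_Up {g : GL (Fin 5) ℤ} (hg : g ∈ Gam) {y : Fin 5 → ℝ} (hy : y ∈ Up) : act g y ∈ Up := by
  have h1 := act_HL ⟨g, hg⟩ (nrm_HL hy)
  have h3 : 0 < -bf y y := by
    have := hy.1
    linarith
  have h4 := Real.sqrt_pos.2 h3
  refine ⟨?_, ?_⟩
  · rw [bf_act g (Gam_isom g hg)]
    exact hy.1
  · have h5 : 0 < (act g (nrm y)) 4 := h1.2
    unfold nrm at h5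
    rw [act_smul] at h5
    have h6 : 0 < (Real.sqrt (-bf y y))⁻¹ * (act g y) 4 := h5
    exact (mul_pos_iff_of_pos_left (by positivity)).1 h6

theorem act_nrm {g : GL (Fin 5) ℤ} (hg : g ∈ Gam) (y : Fin 5 → ℝ) :
    act g (nrm y) = nrm (act g y) := by
  unfold nrm
  rw [act_smul, bf_act g (Gam_isom g hg)]

theorem pr_hl_act {g : GL (Fin 5) ℤ} (hg : g ∈ Gam) (y : Fin 5 → ℝ) :
    pr (hl (act g y)) = pr (hl y) := by
  by_cases hy : y ∈ Up
  · symm
    rw [pr_eq_iff]
    refine ⟨g, hg, ?_⟩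
    rw [hl_val hy, hl_val (act_Up hg hy), act_nrm hg]
  · have hy' : act g y ∉ Up := by
      intro h
      apply hy
      have h1 := act_Up (inv_mem hg) h
      rwa [act_inv_act] at h1
    unfold hl
    rw [dif_neg hy, dif_neg hy']

/-- The point of Minkowski space with given coordinates in a pentachoron. -/
noncomputable def YY (W : Fin 5 → Fin 5 → ℝ) (x : Fin 5 → ℝ) : Fin 5 → ℝ := ∑ m, x m • W m

theorem YY_continuous (W : Fin 5 → Fin 5 → ℝ) : Continuous (YY W) := by
  unfold YY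
  fun_prop

/-- A pentachoron with the ideal vertex `e5`. -/
structure Pent (W : Fin 5 → Fin 5 → ℝ) : Prop where
  zero : W 0 = e5
  four : ∀ m, m ≠ 0 → W m 4 = 1
  neg : ∀ m m', m ≠ 0 → m' ≠ 0 → bf (W m) (W m') < 0

theorem e5_four : (e5 : Fin 5 → ℝ) 4 = 0 := by simp [e5]

theorem YY_four {W : Fin 5 → Fin 5 → ℝ} (hW : Pent W) {x : Fin 5 → ℝ}
    (hx : x ∈ Dl (Finset.univ : Finset (Fin 5))) : YY W x 4 = 1 - x 0 := by
  have h1 : ∑ m, x m = 1 := hx.2.2
  unfold YY
  rw [Finset.sum_apply]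
  simp only [Pi.smul_apply, smul_eq_mul]
  rw [Fin.sum_univ_succ] at h1 ⊢
  have h2 : ∀ m : Fin 4, x m.succ * W m.succ 4 = x m.succ := by
    intro m
    rw [hW.four _ (Fin.succ_ne_zero m), mul_one]
  simp only [h2]
  rw [hW.zero, e5_four]
  linarith

theorem bf_sum_left (n : ℕ) (c : Fin n → ℝ) (w : Fin n → Fin 5 → ℝ) (y : Fin 5 → ℝ) :
    bf (∑ m, c m • w m) y = ∑ m, c m * bf (w m) y := by
  induction n with
  | zero => simp [bf]
  | succ n ih =>
    rw [Fin.sum_univ_succ, Fin.sum_univ_succ, bf_add_left, bf_smul_left, ih]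

theorem bf_sum_right (n : ℕ) (c : Fin n → ℝ) (w : Fin n → Fin 5 → ℝ) (y : Fin 5 → ℝ) :
    bf y (∑ m, c m • w m) = ∑ m, c m * bf y (w m) := by
  rw [bf_comm, bf_sum_left]
  exact Finset.sum_congr rfl fun m _ => by rw [bf_comm]

theorem YY_Up {W : Fin 5 → Fin 5 → ℝ} (hW : Pent W) {x : Fin 5 → ℝ}
    (hx : x ∈ Dl (Finset.univ : Finset (Fin 5))) (h0 : x 0 < 1) : YY W x ∈ Up := by
  refine ⟨?_, by rw [YY_four hW hx]; linarith⟩
  have h1 : ∑ m, x m = 1 := hx.2.2
  rw [Fin.sum_univ_succ] at h1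
  obtain ⟨m₀, hm₀⟩ : ∃ m : Fin 4, 0 < x m.succ := by
    by_contra h
    push Not at h
    have := Finset.sum_nonpos fun m (_ : m ∈ (Finset.univ : Finset (Fin 4))) => h m
    linarith
  -- the sum without the ideal vertex
  have e1 : YY W x = x 0 • e5 + ∑ m : Fin 4, x m.succ • W m.succ := by
    unfold YY
    rw [Fin.sum_univ_succ, hW.zero]
  set B : Fin 5 → ℝ := ∑ m : Fin 4, x m.succ • W m.succ with hB
  have e2 : bf (YY W x) (YY W x) = bf B B + 2 * (x 0 * bf e5 B) := by
    rw [e1, bf_add_left, bf_add_right, bf_add_right, bf_smul_left, bf_smul_left, bf_smul_right,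
      bf_smul_right, bf_comm B e5]
    have : bf (e5 : Fin 5 → ℝ) e5 = 0 := by simp [bf, e5]
    rw [this]
    ring
  have e3 : bf e5 B ≤ 0 := by
    rw [bf_comm, bf_e5]
    have h2 : B 4 = ∑ m : Fin 4, x m.succ := by
      rw [hB, Finset.sum_apply]
      refine Finset.sum_congr rfl fun m _ => ?_
      rw [Pi.smul_apply, hW.four _ (Fin.succ_ne_zero m)]
      simp
    rw [h2]
    have := Finset.sum_nonneg fun m (_ : m ∈ (Finset.univ : Finset (Fin 4))) => hx.1 m.succ
    linarith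
  have e4 : bf B B < 0 := by
    rw [hB, bf_sum_left]
    refine Finset.sum_neg' (fun m _ => ?_) ⟨m₀, Finset.mem_univ _, ?_⟩
    · rw [bf_sum_right]
      refine mul_nonpos_of_nonneg_of_nonpos (hx.1 _) (Finset.sum_nonpos fun m' _ => ?_)
      exact mul_nonpos_of_nonneg_of_nonpos (hx.1 _)
        (hW.neg _ _ (Fin.succ_ne_zero m) (Fin.succ_ne_zero m')).le
    · rw [bf_sum_right]
      refine mul_neg_of_pos_of_neg hm₀ (Finset.sum_neg' (fun m' _ => ?_) ⟨m₀, Finset.mem_univ _, ?_⟩)
      · exact mul_nonpos_of_nonneg_of_nonpos (hx.1 _)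
          (hW.neg _ _ (Fin.succ_ne_zero m₀) (Fin.succ_ne_zero m')).le
      · exact mul_neg_of_pos_of_neg hm₀ (hW.neg _ _ (Fin.succ_ne_zero m₀) (Fin.succ_ne_zero m₀))
  rw [e2]
  have := hx.1 0
  nlinarith

/-- All labels. -/
abbrev labU {ρ : Type} : ρ → Finset (Fin 5) := fun _ => Finset.univ

/-- The data of the topological part. -/
structure TopData {ρ : Type} (Vx : ρ → Fin 5 → Fin 5 → ℝ) (num : ρ → Fin 5 → ℕ)
    (od : ρ → Fin 5 → List (Fin 5)) (S : Set ρ) : Prop where
  fin : S.Finite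
  pent : ∀ i ∈ S, Pent (Vx i)
  /-- the gluings are realised in the group -/
  glue : ∀ z z' : Z labU S, Rg labU num od S z z' →
    ∃ g ∈ Gam, act g (YY (Vx z.1) z.2.1) = YY (Vx z'.1) z'.2.1
  /-- the gluings preserve the coordinate of the ideal vertex -/
  lev : ∀ z z' : Z labU S, Rg labU num od S z z' → z.2.1 0 = z'.2.1 0
  /-- there is only one ideal vertex -/
  inf : ∀ z z' : Z labU S, z.2.1 0 = 1 → z'.2.1 0 = 1 →
    Quot.mk (Rg labU num od S) z = Quot.mk (Rg labU num od S) z'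
  /-- the pentachora cover the manifold -/
  surj : ∀ y : HL, ∃ z : Z labU S, z.2.1 0 < 1 ∧ pr (hl (YY (Vx z.1) z.2.1)) = pr y
  /-- the identifications of the group come from the gluings -/
  inj : ∀ z z' : Z labU S, z.2.1 0 < 1 → z'.2.1 0 < 1 →
    pr (hl (YY (Vx z.1) z.2.1)) = pr (hl (YY (Vx z'.1) z'.2.1)) →
    Quot.mk (Rg labU num od S) z = Quot.mk (Rg labU num od S) z'

section

variable {ρ : Type} {Vx : ρ → Fin 5 → Fin 5 → ℝ} {num : ρ → Fin 5 → ℕ}
  {od : ρ → Fin 5 → List (Fin 5)} {S : Set ρ}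

/-- The coordinate of the ideal vertex. -/
def lev (h : TopData Vx num od S) : X labU num od S → ℝ :=
  Quot.lift (fun z => z.2.1 0) h.lev

/-- The map to the manifold. -/
noncomputable def FF (h : TopData Vx num od S) : X labU num od S → MQ :=
  Quot.lift (fun z => pr (hl (YY (Vx z.1) z.2.1))) (by
    intro z z' hz
    obtain ⟨g, hg, hgy⟩ := h.glue z z' hz
    show pr (hl (YY (Vx z.1) z.2.1)) = pr (hl (YY (Vx z'.1) z'.2.1))
    rw [← hgy, pr_hl_act hg])

/-- The complement of the ideal vertex. -/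
def Xo (h : TopData Vx num od S) : Set (X labU num od S) := {p | lev h p < 1}

theorem coord_le {x : Fin 5 → ℝ} (hx : x ∈ Dl (Finset.univ : Finset (Fin 5))) (m : Fin 5) :
    x m ≤ 1 := by
  rw [← hx.2.2]
  exact Finset.single_le_sum (f := x) (fun w _ => hx.1 w) (Finset.mem_univ m)

theorem lev_continuous (h : TopData Vx num od S) : Continuous (lev h) := by
  refine continuous_quot_lift h.lev ?_
  refine continuous_sigma fun i => ?_
  exact (continuous_apply 0).comp continuous_subtype_val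

theorem Xo_open (h : TopData Vx num od S) : IsOpen (Xo h) :=
  isOpen_lt (lev_continuous h) continuous_const

theorem G_continuous : Continuous fun z : Z (labU : ρ → Finset (Fin 5)) S =>
    YY (Vx z.1) z.2.1 := by
  refine continuous_sigma fun i => ?_
  exact (YY_continuous (Vx i)).comp continuous_subtype_val

/-- The projection to the realisation. -/
def mkX (num : ρ → Fin 5 → ℕ) (od : ρ → Fin 5 → List (Fin 5)) (S : Set ρ) :
    Z (labU : ρ → Finset (Fin 5)) S → X labU num od S := fun z => Quot.mk _ z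

theorem mkX_quot (num : ρ → Fin 5 → ℕ) (od : ρ → Fin 5 → List (Fin 5)) (S : Set ρ) :
    IsQuotientMap (mkX num od S) := isQuotientMap_quot_mk

theorem FF_continuousOn (h : TopData Vx num od S) : ContinuousOn (FF h) (Xo h) := by
  rw [(mkX_quot num od S).continuousOn_isOpen_iff (Xo_open h)]
  have h1 : ContinuousOn (fun z : Z (labU : ρ → Finset (Fin 5)) S => hl (YY (Vx z.1) z.2.1))
      (mkX num od S ⁻¹' Xo h) := by
    refine hl_continuousOn.comp G_continuous.continuousOn ?_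
    intro z hz
    exact YY_Up (h.pent z.1 z.1.2) z.2.2 hz
  exact pr_continuous.comp_continuousOn h1

instance compactX [Finite S] : CompactSpace (X (labU : ρ → Finset (Fin 5)) num od S) := by
  have : ∀ i : S, CompactSpace (Dl ((labU : ρ → Finset (Fin 5)) i)) := fun i =>
    isCompact_iff_compactSpace.mp (isCompact_Dl _)
  exact inferInstanceAs (CompactSpace (Quot (Rg labU num od S)))

theorem lvl {W : Fin 5 → Fin 5 → ℝ} (hW : Pent W) {x : Fin 5 → ℝ}
    (hx : x ∈ Dl (Finset.univ : Finset (Fin 5))) (h0 : x 0 < 1) :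
    x 0 * (1 + 2 * ((hl (YY W x)).1 4) ^ 2) ≤ 1 := by
  have hU := YY_Up hW hx h0
  have e1 : YY W x = x 0 • e5 + ∑ m : Fin 4, x m.succ • W m.succ := by
    unfold YY
    rw [Fin.sum_univ_succ, hW.zero]
  set B : Fin 5 → ℝ := ∑ m : Fin 4, x m.succ • W m.succ with hB
  have e2 : bf (YY W x) (YY W x) = bf B B + 2 * (x 0 * bf e5 B) := by
    rw [e1, bf_add_left, bf_add_right, bf_add_right, bf_smul_left, bf_smul_left, bf_smul_right,
      bf_smul_right, bf_comm B e5]
    have : bf (e5 : Fin 5 → ℝ) e5 = 0 := by simp [bf, e5]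
    rw [this]
    ring
  have e3 : bf e5 B = - (1 - x 0) := by
    rw [bf_comm, bf_e5]
    have h2 : B 4 = (YY W x) 4 := by
      rw [e1, Pi.add_apply, Pi.smul_apply, e5_four]
      simp
    rw [h2, YY_four hW hx]
  have e4 : bf B B ≤ 0 := by
    rw [hB, bf_sum_left]
    refine Finset.sum_nonpos fun m _ => ?_
    rw [bf_sum_right]
    refine mul_nonpos_of_nonneg_of_nonpos (hx.1 _) (Finset.sum_nonpos fun m' _ => ?_)
    exact mul_nonpos_of_nonneg_of_nonpos (hx.1 _)
      (hW.neg _ _ (Fin.succ_ne_zero m) (Fin.succ_ne_zero m')).le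
  have hx0 := hx.1 0
  have e5' : 2 * (x 0 * (1 - x 0)) ≤ -bf (YY W x) (YY W x) := by
    rw [e2, e3]
    nlinarith
  have e6 : 0 < -bf (YY W x) (YY W x) := by
    have := hU.1
    linarith
  have e7 : ((hl (YY W x)).1 4) ^ 2 * (-bf (YY W x) (YY W x)) = (1 - x 0) ^ 2 := by
    rw [hl_val hU]
    have : nrm (YY W x) 4 = (Real.sqrt (-bf (YY W x) (YY W x)))⁻¹ * (YY W x) 4 := rfl
    rw [this, YY_four hW hx, mul_pow, inv_pow, Real.sq_sqrt e6.le]
    have hne := e6.ne'
    rw [mul_comm, ← mul_assoc, mul_inv_cancel₀ hne, one_mul]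
  set q := ((hl (YY W x)).1 4) ^ 2 with hq
  have hq0 : 0 ≤ q := sq_nonneg _
  have e8 : q * (2 * (x 0 * (1 - x 0))) ≤ (1 - x 0) ^ 2 := by
    rw [← e7]
    exact mul_le_mul_of_nonneg_left e5' hq0
  have e9 : (1 - x 0) * (q * (2 * x 0)) ≤ (1 - x 0) * (1 - x 0) := by nlinarith
  have e10 := le_of_mul_le_mul_left e9 (by linarith)
  nlinarith

/-- The map to the manifold is proper. -/
theorem proper (h : TopData Vx num od S) (m : MQ) : ∃ N : Set MQ, IsOpen N ∧ m ∈ N ∧
    ∃ t < 1, ∀ p ∈ Xo h, FF h p ∈ N → lev h p ≤ t := by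
  obtain ⟨y₀, rfl⟩ := pr_surj m
  have hp0 := HL_zero_pos y₀.2
  have hp4 := y₀.2.2
  set R : ℝ := y₀.1 0 + y₀.1 4 + 1 with hR
  have hRpos : 0 < R := by linarith
  refine ⟨pr '' {y : HL | y.1 0 + y.1 4 < R}, pr_open _ ?_, ⟨y₀, by
    show y₀.1 0 + y₀.1 4 < R
    rw [hR]
    linarith, rfl⟩, 1 / (1 + 2 * (1 / (2 * R)) ^ 2), ?_, ?_⟩
  · exact isOpen_lt (((continuous_apply 0).comp continuous_subtype_val).add
      ((continuous_apply 4).comp continuous_subtype_val)) continuous_const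
  · rw [div_lt_one (by positivity)]
    have : 0 < (1 / (2 * R)) ^ 2 := by positivity
    linarith
  · intro p
    induction p using Quot.ind with
    | mk z =>
      intro hp hN
      obtain ⟨y', hy', hyy⟩ := hN
      have hz : z.2.1 0 < 1 := hp
      have hyy' : pr y' = pr (hl (YY (Vx z.1) z.2.1)) := hyy
      obtain ⟨g, hg, hgy⟩ := pr_eq_iff.1 hyy'
      have h1 := height_ge ⟨g, hg⟩ y'
      have h2 := lvl (h.pent z.1 z.1.2) z.2.2 hz
      show z.2.1 0 ≤ _
      have h3 : 1 / (2 * R) ≤ (hl (YY (Vx z.1) z.2.1)).1 4 := by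
        rw [← hgy]
        refine le_trans ?_ h1
        have h4 : y'.1 0 + y'.1 4 < R := hy'
        have h5 := HL_zero_pos y'.2
        have h6 := y'.2.2
        apply one_div_le_one_div_of_le (by linarith)
        linarith
      rw [le_div_iff₀ (by positivity)]
      refine le_trans ?_ h2
      refine mul_le_mul_of_nonneg_left ?_ (z.2.2.1 0)
      have h7 : 0 < 1 / (2 * R) := by positivity
      have h8 : (1 / (2 * R)) ^ 2 ≤ ((hl (YY (Vx z.1) z.2.1)).1 4) ^ 2 := by
        apply pow_le_pow_left₀ h7.le h3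
      linarith

/-- The map on the complement of the ideal vertex. -/
noncomputable def Fo (h : TopData Vx num od S) : Xo h → MQ := fun p => FF h p.1

theorem Fo_continuous (h : TopData Vx num od S) : Continuous (Fo h) := by
  have := continuousOn_iff_continuous_domRestrict.1 (FF_continuousOn h)
  exact this

theorem Fo_bij (h : TopData Vx num od S) : Function.Bijective (Fo h) := by
  constructor
  · rintro ⟨p, hp⟩ ⟨q, hq⟩ hpq
    induction p using Quot.ind with
    | mk z =>
      induction q using Quot.ind with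
      | mk z' => exact Subtype.ext (h.inj z z' hp hq hpq)
  · intro m
    obtain ⟨y, rfl⟩ := pr_surj m
    obtain ⟨z, hz, hzy⟩ := h.surj y
    exact ⟨⟨Quot.mk _ z, hz⟩, hzy⟩

theorem Fo_closed (h : TopData Vx num od S) : IsClosedMap (Fo h) := by
  have : Finite S := h.fin
  intro A hA
  apply isClosed_of_closure_subset
  intro m hm
  obtain ⟨N, hN, hmN, t, ht, hNt⟩ := proper h m
  have hK : IsCompact {p : Xo h | lev h p.1 ≤ t} := by
    rw [Topology.IsInducing.subtypeVal.isCompact_iff]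
    have h1 : Subtype.val '' {p : Xo h | lev h p.1 ≤ t} = {p | lev h p ≤ t} := by
      ext p
      constructor
      · rintro ⟨q, hq, rfl⟩
        exact hq
      · intro hp
        exact ⟨⟨p, lt_of_le_of_lt (show lev h p ≤ t from hp) ht⟩, hp, rfl⟩
    rw [h1]
    exact (isClosed_le (lev_continuous h) continuous_const).isCompact
  have hAK : IsCompact (A ∩ {p : Xo h | lev h p.1 ≤ t}) := hK.inter_left hA
  have hcl : IsClosed (Fo h '' (A ∩ {p : Xo h | lev h p.1 ≤ t})) :=
    (hAK.image (Fo_continuous h)).isClosed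
  have h2 : m ∈ closure (N ∩ Fo h '' A) := by
    rw [mem_closure_iff] at hm ⊢
    intro o ho hmo
    obtain ⟨x, hx1, hx2⟩ := hm (o ∩ N) (ho.inter hN) ⟨hmo, hmN⟩
    exact ⟨x, hx1.1, hx1.2, hx2⟩
  have h3 : N ∩ Fo h '' A ⊆ Fo h '' (A ∩ {p : Xo h | lev h p.1 ≤ t}) := by
    rintro _ ⟨hx, p, hp, rfl⟩
    exact ⟨p, ⟨hp, hNt p.1 p.2 hx⟩, rfl⟩
  have h4 := closure_minimal h3 hcl h2
  obtain ⟨p, hp, hpm⟩ := h4
  exact ⟨p, hp.1, hpm⟩

/-- **The gluing without the ideal vertex is the hyperbolic manifold.** -/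
noncomputable def Fhom (h : TopData Vx num od S) : Xo h ≃ₜ MQ :=
  (Equiv.ofBijective (Fo h) (Fo_bij h)).toHomeomorphOfContinuousClosed (Fo_continuous h)
    (Fo_closed h)

theorem Fhom_mk (h : TopData Vx num od S) (z : Z labU S) (hz : z.2.1 0 < 1) :
    Fhom h ⟨Quot.mk _ z, hz⟩ = pr (hl (YY (Vx z.1) z.2.1)) := rfl

/-- The complement of the ideal vertex, as the complement of one point. -/
theorem Xo_eq (h : TopData Vx num od S) (z : Z labU S) (hz : z.2.1 0 = 1) :
    Xo h = {p | p ≠ Quot.mk _ z} := by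
  ext p
  induction p using Quot.ind with
  | mk z' =>
    constructor
    · intro hp heq
      have h1 : z'.2.1 0 < 1 := hp
      have h2 : lev h (Quot.mk _ z') = lev h (Quot.mk _ z) := congrArg (lev h) heq
      have h3 : z'.2.1 0 = z.2.1 0 := h2
      linarith
    · intro hp
      by_contra h1
      apply hp
      refine h.inf z' z (le_antisymm (coord_le z'.2.2 0) ?_) hz
      exact not_lt.1 h1

end

end H4C
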