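import Pool.Agent.Lib_MP_55d5ef_c.Glue
import Pool.Agent.Lib_MP_55d5ef_c.CTop
import Pool.Agent.Lib_MP_55d5ef_t.TFlo

/-!
# `MP_55d5ef_gt`, level B: the table and the tiling of `ℝ³`

`pn t` is the number of the pentachoron over the tile `t`; the gluings of the table are the
adjacencies `nbr`, `flt` of the tiles; `Vr i m` are the vertices of the pentachora,
`VT t m` the isotropic-type vectors over the vertices of the tiles.
-/

open Matrix Lib_MP_55d5ef_geo Lib_MP_55d5ef Lib_MP_55d5ef_q MP55T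

namespace Lib_MP_55d5ef_c

/-- The number of the pentachoron over the tile `t`. -/
def pn (t : Tl) : ℕ := 12 * cls t.1 + t.2

theorem pn_lt {t : Tl} (ht : t.2 < 12) : pn t < 480 := by
  have := cls_lt t.1
  unfold pn
  omega

theorem pn_div {t : Tl} (ht : t.2 < 12) : pn t / 12 = cls t.1 := by
  unfold pn
  omega

theorem pn_mod {t : Tl} (ht : t.2 < 12) : pn t % 12 = t.2 := by
  unfold pn
  omega

theorem pn_rpc {i : ℕ} (hi : i < 480) : pn (rpc (i / 12), i % 12) = i := by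
  unfold pn
  rw [chk_cls _ (by omega)]
  show 12 * (i / 12) + i % 12 = i
  omega

theorem chk_gj : ∀ c < 40, ∀ l < 12, ∀ m < 4, gj (12 * c + l) (m + 1) =
    12 * cls (rpc c + dv (nbt (MP55T.axl.getD c 0) l m).1) +
      (nbt (MP55T.axl.getD c 0) l m).2.1 := by decide +kernel

theorem chk_gp : ∀ c < 40, ∀ l < 12, ∀ m < 4, ∀ v < 4, gp (12 * c + l) (m + 1) (v + 1) =
    pm (nbt (MP55T.axl.getD c 0) l m).2.2 v + 1 := by decide +kernel

theorem chk_gj0 : ∀ c < 40, ∀ l < 12, gj (12 * c + l) 0 =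
    12 * cls (rpc (prc c)) + (fle c l).1 := by decide +kernel

theorem chk_gp0 : ∀ c < 40, ∀ l < 12, ∀ v < 4, gp (12 * c + l) 0 (v + 1) =
    pm (fle c l).2 v + 1 := by decide +kernel

theorem chk_WW : ∀ c < 40, ∀ l < 12, ∀ v < 4, W (ax c) l v = Wt (MP55T.axl.getD c 0) l v := by
  decide +kernel

/-- A lattice vector is the representative of its class plus a vector of `Λ'`. -/
theorem exists_lam (k : Fin 3 → ℤ) :
    ∃ lam : Fin 3 → ℤ, InLam (lam 0) (lam 1) (lam 2) ∧ k = rpc (cls k) + lam := by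
  refine ⟨k - rpc (cls k), ?_, by abel⟩
  have h := (cls_spec k).2
  have e0 : (k - rpc (cls k)) 0 = k 0 - repx (cls k) := rfl
  have e1 : (k - rpc (cls k)) 1 = k 1 := by
    show k 1 - 0 = k 1
    ring
  have e2 : (k - rpc (cls k)) 2 = k 2 - repz (cls k) := rfl
  rw [e0, e1, e2]
  exact h

/-- **Vertical facets**: the gluing of the facet `m + 1` is the adjacency of the tiles. -/
theorem gj_pn {t : Tl} (ht : t.2 < 12) {m : ℕ} (hm : m < 4) :
    gj (pn t) (m + 1) = pn (nbr t m) := by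
  obtain ⟨lam, hl, hk⟩ := exists_lam t.1
  have h := chk_gj _ (cls_lt t.1) _ ht _ hm
  unfold pn nbr
  rw [h]
  have e : cls (t.1 + dv (nbt (axk t.1) t.2 m).1) =
      cls (rpc (cls t.1) + dv (nbt (axk t.1) t.2 m).1) := by
    have e1 : t.1 + dv (nbt (axk t.1) t.2 m).1 =
        (rpc (cls t.1) + dv (nbt (axk t.1) t.2 m).1) + lam := by
      conv_lhs => rw [hk]
      have e2 : axk (rpc (cls t.1) + lam) = axk t.1 := by rw [← hk]
      rw [e2]
      abel
    rw [e1, cls_add hl]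
  show _ = 12 * cls (t.1 + dv (nbt (axk t.1) t.2 m).1) + (nbt (axk t.1) t.2 m).2.1
  rw [e]
  rfl

theorem gp_pn {t : Tl} (ht : t.2 < 12) {m : ℕ} (hm : m < 4) {v : ℕ} (hv : v < 4) :
    gp (pn t) (m + 1) (v + 1) = pmr t m v + 1 :=
  chk_gp _ (cls_lt t.1) _ ht _ hm _ hv

/-- **Floor facets**: the gluing of the facet `0` is the side pairing of the tiles. -/
theorem gj_pn0 {t : Tl} (ht : t.2 < 12) : gj (pn t) 0 = pn (flt t) :=
  chk_gj0 _ (cls_lt t.1) _ ht

theorem gp_pn0 {t : Tl} (ht : t.2 < 12) {v : ℕ} (hv : v < 4) :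
    gp (pn t) 0 (v + 1) = flp t v + 1 :=
  chk_gp0 _ (cls_lt t.1) _ ht _ hv

/-! ### The vertices -/

/-- The real vertices of the pentachora, normalised by the last coordinate `1`. -/
noncomputable def Vr (i m : ℕ) : Fin 5 → ℝ :=
  if m = 0 then e5 else (1 / 10 : ℝ) • toR (V10 i m)

theorem Vr_zero (i : ℕ) : Vr i 0 = e5 := by
  unfold Vr
  rw [if_pos rfl]

theorem Vr_succ (i m : ℕ) : Vr i (m + 1) = (1 / 10 : ℝ) • toR (V10 i (m + 1)) := by
  unfold Vr
  rw [if_neg (Nat.succ_ne_zero m)]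

theorem toR_e5 : toR (e5 : Fin 5 → ℤ) = e5 := by
  funext i
  fin_cases i <;> simp [toR, e5]

/-- **Every gluing is realised by an element of `Γ`** on the normalised vertices. -/
theorem glue_Vr {i k : ℕ} (hi : i < 480) (hk : k < 5) :
    ∃ g ∈ Gam, ∀ m < 5, m ≠ k → act g (Vr i m) = Vr (gj i k) (gp i k m) := by
  obtain ⟨g, hg, h⟩ := glue_act hi hk
  refine ⟨g, hg, fun m hm hmk => ?_⟩
  have h' := h m hm hmk
  rcases Nat.eq_zero_or_pos m with h0 | h0
  · subst h0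
    rw [gp_zero hi hk, V10_zero, V10_zero, toR_e5] at h'
    rw [gp_zero hi hk, Vr_zero, Vr_zero]
    exact h'
  · obtain ⟨m', rfl⟩ : ∃ m', m = m' + 1 := ⟨m - 1, by omega⟩
    have h1 : gp i k (m' + 1) ≠ 0 := fun h2 => by
      have := gp_inj hi hk hm (show 0 < 5 by norm_num) (h2.trans (gp_zero hi hk).symm)
      omega
    obtain ⟨w, hw⟩ : ∃ w, gp i k (m' + 1) = w + 1 := ⟨gp i k (m' + 1) - 1, by omega⟩
    rw [hw] at h' ⊢
    rw [Vr_succ, Vr_succ, H4C.act_smul, h']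

theorem V10_succ_four (i m : ℕ) : V10 i (m + 1) 4 = 10 := by
  rw [V10_succ, TM_mulVec]
  simp [Vz]

theorem bf_toR' (v w : Fin 5 → ℤ) : bf (toR v) (toR w) = ((bf v w : ℤ) : ℝ) := by
  simp only [bf, toR]
  push_cast
  ring

theorem chk_neg : ∀ a < 3, ∀ l < 12, ∀ v < 4, ∀ v' < 4, bf (Vz (W a l v)) (Vz (W a l v')) < 0 := by
  decide +kernel

theorem V10_neg {i v v' : ℕ} (hi : i < 480) (hv : v < 4) (hv' : v' < 4) :
    bf (V10 i (v + 1)) (V10 i (v' + 1)) < 0 := by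
  rw [V10_succ, V10_succ]
  have h := iso_TG (repx (i / 12)) 0 (repz (i / 12)) (Vz (W (ax (i / 12)) (i % 12) v))
    (Vz (W (ax (i / 12)) (i % 12) v'))
  rw [TG_val] at h
  rw [h]
  exact chk_neg _ (ax_lt (by omega)) _ (Nat.mod_lt _ (by norm_num)) _ hv _ hv'

/-- The vertices indexed by `Fin 480` and `Fin 5`. -/
noncomputable def VF (i : Fin 480) (m : Fin 5) : Fin 5 → ℝ := Vr i m

theorem VF_pent (i : Fin 480) : H4C.Pent (VF i) := by
  refine ⟨Vr_zero i, fun m hm => ?_, fun m m' hm hm' => ?_⟩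
  · obtain ⟨v, hv⟩ : ∃ v, (m : ℕ) = v + 1 := ⟨m - 1, by
      have : (m : ℕ) ≠ 0 := fun h => hm (Fin.ext h)
      omega⟩
    unfold VF
    rw [hv, Vr_succ]
    show (1 / 10 : ℝ) * ((V10 i (v + 1) 4 : ℤ) : ℝ) = 1
    rw [V10_succ_four]
    norm_num
  · obtain ⟨v, hv⟩ : ∃ v, (m : ℕ) = v + 1 := ⟨m - 1, by
      have : (m : ℕ) ≠ 0 := fun h => hm (Fin.ext h)
      omega⟩
    obtain ⟨v', hv'⟩ : ∃ v, (m' : ℕ) = v + 1 := ⟨m' - 1, by
      have : (m' : ℕ) ≠ 0 := fun h => hm' (Fin.ext h)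
      omega⟩
    unfold VF
    rw [hv, hv', Vr_succ, Vr_succ, bf_smul_left, bf_smul_right, bf_toR']
    have h : ((bf (V10 i (v + 1)) (V10 i (v' + 1)) : ℤ) : ℝ) < 0 := by
      exact_mod_cast V10_neg i.2 (by omega) (by omega)
    nlinarith

/-! ### The vectors over the tiles -/

/-- The height function of the floor over the cell of `k` in the straight model. -/
def phiF (k : Fin 3 → ℤ) (z : P3) : ℝ := 1 + qz z - qz (z - kz k)

theorem phiF_eq (k : Fin 3 → ℤ) (z : P3) : phiF k z =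
    1 + (2 * (k 0 : ℝ) - k 1 - k 2) * z 0 + (2 * (k 1 : ℝ) - k 0) * z 1 +
      (4 * (k 2 : ℝ) - k 0) * z 2 - qK (k 0 : ℝ) (k 1) (k 2) := by
  unfold phiF qz qK kz
  simp only [Pi.sub_apply]
  ring

/-- The vector over the vertex `m` of the tile `t`. -/
noncomputable def VT (t : Tl) (m : ℕ) : Fin 5 → ℝ :=
  ![phiF t.1 (vt t m), vt t m 0, vt t m 1, vt t m 2, 1]

theorem Vr_pn {t : Tl} (ht : t.2 < 12) {m : ℕ} (hm : m < 4) :
    Vr (pn t) (m + 1) = VT (rpc (cls t.1), t.2) m := by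
  have hc := cls_lt t.1
  rw [Vr_succ, V10_succ, pn_div ht, pn_mod ht, chk_WW _ hc _ ht _ hm, TM_mulVec]
  unfold VT
  rw [phiF_eq]
  have e : axk (rpc (cls t.1)) = MP55T.axl.getD (cls t.1) 0 := by
    unfold axk
    rw [chk_cls _ hc]
  unfold vt
  rw [e]
  set w := Wt (MP55T.axl.getD (cls t.1) 0) t.2 m
  funext i
  fin_cases i
  · simp [toR, Vz, kz, rpc, rv, qK]
    ring
  · simp [toR, Vz, kz, rpc, rv]
    ring
  · simp [toR, Vz, kz, rpc, rv]
    ring
  · simp [toR, Vz, kz, rpc, rv]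
    ring
  · simp [toR, Vz]

/-- Translation by `Λ'` on the vectors over the tiles. -/
theorem act_VT (k l : Fin 3 → ℤ) (hl : InLam (l 0) (l 1) (l 2)) (j m : ℕ) :
    act (TG (l 0) (l 1) (l 2)) (VT (k, j) m) = VT (k + l, j) m := by
  rw [act_TG]
  have e : vt (k + l, j) m = vt (k, j) m + kz l := by
    unfold vt
    have e1 : axk (k + l) = axk k := by
      unfold axk
      rw [cls_add hl]
    simp only [e1, kz_add]
    abel
  unfold VT
  rw [e]
  set z := vt (k, j) m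
  funext i
  fin_cases i
  · simp only [Matrix.cons_val, phiF, qz, qK, kz, Pi.add_apply, Pi.sub_apply]
    simp
    ring
  · simp [kz]
  · simp [kz]
  · simp [kz]
  · simp

/-- Convex combinations of the vectors over the vertices of a tile. -/
theorem sum_VT (t : Tl) (β : ℕ → ℝ) (h : β 0 + β 1 + β 2 + β 3 = 1) :
    β 0 • VT t 0 + β 1 • VT t 1 + β 2 • VT t 2 + β 3 • VT t 3 =
      ![phiF t.1 (posT t β), posT t β 0, posT t β 1, posT t β 2, 1] := by
  funext i
  fin_cases i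
  · simp only [VT, phiF_eq, posT]
    simp
    linear_combination (1 - qK (t.1 0 : ℝ) (t.1 1) (t.1 2)) * h
  · simp [VT, posT]
  · simp [VT, posT]
  · simp [VT, posT]
  · simp [VT]
    exact h

end Lib_MP_55d5ef_c
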